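import Pool.Agent.TH678.WP.Down
import Pool.Agent.H620R2.GaugeR.Seq

/-!
# `W[P]` is `FPT` if `NP` is `P`, relative to an oracle
-/

set_option autoImplicit false

namespace Pool.Agent.TH733.RG

open Pool.Agent.NPC Pool.Agent.H622R2 Pool.Agent.H620R2.Gauge Pool.Agent.TH678.WP

/-- the string that codes the number of the guessed bits -/
def gC (z : List Bool) : List Bool := (unpair (unpair z).1).1

/-- the information about the parameter -/
def gP (z : List Bool) : List Bool := (unpair (unpair z).1).2

/-- the input -/
def gX (z : List Bool) : List Bool := (unpair z).2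

theorem poly_gC : Poly gC := Poly.fst (poly_unpair.comp (Poly.fst poly_unpair))

theorem poly_gP : Poly gP := Poly.snd (poly_unpair.comp (Poly.fst poly_unpair))

theorem poly_gX : Poly gX := Poly.snd poly_unpair

/-- the number of the guessed bits -/
def gN (z : List Bool) : ℕ := (gC z).length * (Nat.log 2 (gX z).length + 1)

theorem uPoly_gN {α : Type} [TEnc α] {f : α → List Bool} (hf : Poly f) :
    UPoly (fun a => gN (f a)) :=
  UPoly.mul (UPoly.length (poly_gC.comp hf)) (uPoly_log (poly_gX.comp hf))

theorem wp_fpt_of {A : Oracle} (h : ∀ L, IsNP A L → IsP A L) {Q : Set (List Bool × ℕ)}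
    (hQ : InWP A Q) : InFPT A Q := by
  obtain ⟨π, η, V, hπ, hη, hV, hQ⟩ := hQ
  set L : Set (List Bool) := {z | ∃ w : List Bool, w.length ≤ gN z ∧
    V (pairBits w (pairBits (gP z) (gX z))) = [true]} with hL
  have hu1 : Poly (fun y : List Bool => (unpair y).1) := Poly.fst poly_unpair
  have hu2 : Poly (fun y : List Bool => (unpair y).2) := Poly.snd poly_unpair
  have hg : Poly (fun y : List Bool => pairBits (unpair y).1
      (pairBits (gP (unpair y).2) (gX (unpair y).2))) :=
    poly_pairBits hu1 (poly_pairBits (poly_gP.comp hu2) (poly_gX.comp hu2))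
  -- the verifier
  have hpost : Poly (fun u : List Bool => if (unpair u).2 = [true] then
      (if (unpair (unpair u).1).1.length ≤ gN (unpair (unpair u).1).2 then [true] else [])
      else ([] : List Bool)) := by
    refine Poly.ite (Poly.decide_eq hu2 (NPC.Poly.const _)) ?_ (NPC.Poly.const _)
    refine Poly.ite (Poly.decide_le ?_ ?_) (NPC.Poly.const _) (NPC.Poly.const _)
    · exact Poly.length (hu1.comp hu1)
    · exact (uPoly_gN (hu2.comp hu1)).toPoly
  have hver : IsFP A (fun y : List Bool => (fun u : List Bool => if (unpair u).2 = [true] then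
      (if (unpair (unpair u).1).1.length ≤ gN (unpair (unpair u).1).2 then [true] else [])
      else ([] : List Bool)) (pairBits y (V (pairBits (unpair y).1
      (pairBits (gP (unpair y).2) (gX (unpair y).2)))))) :=
    IsFP.comp (IsFP.of_poly hpost) (IsFP.pair (IsFP.of_poly Poly.id) (hV.precomp hg))
  have hNP : IsNP A L := by
    have h1 : Poly (fun z : List Bool => List.replicate (gN z) true) :=
      poly_replicate (uPoly_gN Poly.id) true
    obtain ⟨q, hq⟩ := h1.sz_le
    refine ⟨_, q.comp (Polynomial.C 4 * Polynomial.X + Polynomial.C 1), hver, fun z => ?_⟩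
    have hb : gN z ≤ (q.comp (Polynomial.C 4 * Polynomial.X + Polynomial.C 1)).eval z.length := by
      have h3 := length_lt_sz (List.replicate (gN z) true)
      have h4 := hq z
      rw [List.length_replicate] at h3
      rw [Polynomial.eval_comp]
      refine h3.le.trans (h4.trans (eval_mono _ ?_))
      have h5 := sz_listBool_le z
      simpa using h5
    rw [hL, Set.mem_ofPred_eq]
    constructor
    · rintro ⟨w, h1, h2⟩
      refine ⟨w, h1.trans hb, ?_⟩
      simp only [unpair_pairBits, h2, h1, if_true]
    · rintro ⟨w, -, h2⟩
      simp only [unpair_pairBits] at h2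
      split_ifs at h2 with h3 h4
      exact ⟨w, h4, h3⟩
  refine ⟨fun k => pairBits (List.replicate (η k) true) (π k), L,
    computable_pairBits.comp (computable_replicate.comp hη) hπ, h L hNP, fun x k => ?_⟩
  rw [hQ x k, hL, Set.mem_ofPred_eq]
  have e1 : gX (pairBits (pairBits (List.replicate (η k) true) (π k)) x) = x := by
    unfold gX
    rw [unpair_pairBits]
  have e2 : gP (pairBits (pairBits (List.replicate (η k) true) (π k)) x) = π k := by
    unfold gP
    rw [unpair_pairBits, unpair_pairBits]
  have e3 : gC (pairBits (pairBits (List.replicate (η k) true) (π k)) x) =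
      List.replicate (η k) true := by
    unfold gC
    rw [unpair_pairBits, unpair_pairBits]
  unfold gN
  rw [e1, e2, e3, List.length_replicate]

end Pool.Agent.TH733.RG
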