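import Pool.Agent.H622R2.Exp.A6

/-!
# Deterministic exponential time is closed under complements
-/

set_option autoImplicit false

namespace Pool.Agent.TH733.RG

open Pool.Agent.NPC Pool.Agent.H620R2.Gauge Pool.Agent.H622R2.Exp Pool.Agent.H622R2

theorem inTime_compl {E : Set (Polynomial ℕ)} {A : Oracle} {L : Set (List Bool)}
    (h : InTime E A L) : InTime E A Lᶜ := by
  obtain ⟨M, q, hq, hM⟩ := h
  have hD := poly_of_polyTime M.poly
  -- negate the output
  have hN : Poly (fun z : List Bool => if (M.D z).head? = some false then M.D z else
      (if (M.D z).tail = [true] then [true] else [true, true])) := by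
    refine Poly.ite (Poly.decide_eq (Poly.head? hD) (NPC.Poly.const _)) hD ?_
    exact Poly.ite (Poly.decide_eq (Poly.tail hD) (NPC.Poly.const _)) (NPC.Poly.const _)
      (NPC.Poly.const _)
  refine ⟨⟨_, polyTime_of_poly_list hN, M.p⟩, q, hq, fun x => ?_⟩
  have key : ∀ (n : ℕ) (a : List Bool) (z : List Bool), M.run A x n a = some z →
      Alg.run ⟨_, polyTime_of_poly_list hN, M.p⟩ A x n a =
        some (if z = [true] then [] else [true]) := by
    intro n
    induction n with
    | zero => intro a z h; simp [Alg.run] at h
    | succ n ih =>
      intro a z h
      rcases hq : M.D (pairBits x a) with _ | ⟨c, q⟩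
      · simp only [Alg.run, hq, Option.some.injEq] at h
        subst h
        simp [Alg.run, hq]
      · cases c with
        | true =>
          simp only [Alg.run, hq, Option.some.injEq] at h
          subst h
          simp only [Alg.run, hq]
          by_cases hz : q = [true]
          · simp [hz]
          · simp [hz]
        | false =>
          simp only [Alg.run, hq] at h
          simp only [Alg.run, hq]
          have := ih _ _ h
          simpa using this
  obtain ⟨z, h1, h2⟩ := hM x
  refine ⟨_, key _ _ _ h1, ?_⟩
  show ¬ x ∈ L ↔ _
  rw [h2]
  by_cases h : z = [true] <;> simp [h]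

end Pool.Agent.TH733.RG
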