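import Pool.Agent.TH733.RG.Zero
import Pool.Agent.TH687.OneDeg.PSp

/-!
# Oracles relative to which all of `PSPACE` is many-one reducible to the oracle
-/

set_option autoImplicit false

namespace Pool.Agent.TH733.RG

open Pool.Agent.NPC Pool.Agent.H628R3.RO
open Pool.Agent.H620R2.Gauge (IsPSPACE)
open Pool.Agent.H622R2 (poly_of_polyTime)

/-- `PSPACE` relative to `D` is many-one reducible to `D`. -/
def Collapse (D : Oracle) : Prop := ∀ L, IsPSPACE D L → Reduces L {x | D x = true}

theorem isNP_poly {A : Oracle} {p : List Bool → Bool} (hp : Poly p) :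
    IsNP A {x | p x = true} := by
  have hf : Poly (fun z : List Bool => [p (unpair z).1]) :=
    Poly.cons (hp.comp (Poly.fst poly_unpair)) (NPC.Poly.const [])
  refine ⟨_, 0, IsFP.of_poly hf, fun x => ?_⟩
  rw [Set.mem_ofPred_eq]
  constructor
  · intro h
    refine ⟨[], by simp, ?_⟩
    rw [unpair_pairBits, h]
  · rintro ⟨w, -, h⟩
    rw [unpair_pairBits] at h
    simpa using h

/-- each `PSPACE` set has a selector: a function in `FP` with value `y` on the set and with a
polynomial-time computable value otherwise -/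
theorem Collapse.select {D : Oracle} (h : Collapse D) {L : Set (List Bool)} (hL : IsPSPACE D L)
    {f g : List Bool → List Bool} (hf : Poly f) (hg : Poly g) :
    ∃ F : List Bool → List Bool, IsFP D F ∧ (∀ x ∈ L, F x = f x) ∧ ∀ x ∉ L, F x = g x := by
  obtain ⟨q, hq, hqL⟩ := h L hL
  have hq' := poly_of_polyTime hq
  have hH : Poly (fun p : List Bool × List Bool => if p.2 = [true] then f p.1 else g p.1) :=
    Poly.ite (Poly.decide_eq (Poly.snd Poly.id) (NPC.Poly.const _)) (hf.comp (Poly.fst Poly.id))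
      (hg.comp (Poly.fst Poly.id))
  refine ⟨_, IsFP.tt (Q := fun x => [q x]) (Poly.cons hq' (NPC.Poly.const [])) hH,
    fun x hx => ?_, fun x hx => ?_⟩
  · have h1 : D (q x) = true := (hqL x).1 hx
    simp [h1]
  · have h1 : ¬ D (q x) = true := fun h2 => hx ((hqL x).2 h2)
    simp [h1]

theorem Collapse.red {D : Oracle} (h : Collapse D) {L K : Set (List Bool)} (hL : IsPSPACE D L)
    {y z : List Bool} (hy : y ∈ K) (hz : z ∉ K) : Red D L K := by
  obtain ⟨F, hF, h1, h2⟩ := h.select hL (NPC.Poly.const y) (NPC.Poly.const z)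
  refine ⟨F, hF, fun x => ?_⟩
  by_cases hx : x ∈ L
  · rw [h1 x hx]
    exact iff_of_true hx hy
  · rw [h2 x hx]
    exact iff_of_false hx hz

theorem of_conp {D : Oracle} {L : Set (List Bool)} (hL : IsCoNP D L) : IsPSPACE D L := by
  have h1 := (Pool.Agent.TH687.OneDeg.of_np hL).compl
  rwa [compl_compl] at h1

/-- each nonempty set in `PSPACE` has a `p`-optimal proof system -/
theorem Collapse.popt {D : Oracle} (h : Collapse D) {L : Set (List Bool)} (hL : IsPSPACE D L)
    {x₀ : List Bool} (hx₀ : x₀ ∈ L) : ∃ P, IsPOptimal D L P := by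
  obtain ⟨F, hF, h1, h2⟩ := h.select hL Poly.id (NPC.Poly.const x₀)
  refine ⟨F, ⟨hF, ?_⟩, fun Q hQ => ⟨Q, hQ.1, fun w => ?_⟩⟩
  · ext y
    constructor
    · rintro ⟨x, rfl⟩
      by_cases hx : x ∈ L
      · rw [h1 x hx]
        exact hx
      · rw [h2 x hx]
        exact hx₀
    · intro hy
      exact ⟨y, h1 y hy⟩
  · have h3 : Q w ∈ L := by
      rw [← hQ.2]
      exact ⟨w, rfl⟩
    exact h1 _ h3

/-- **Every pattern, for all properties of measure one.** -/
theorem patterns {S : Set Oracle} (hS : ∀ᵐ A ∂randomOracle, A ∉ S) :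
    ∀ᵐ B ∂(RT.randomSeq), ∀ I : Set ℕ, ∃ A : Oracle,
      (∀ i ∈ I, Collapse (RT.xor2 A (B i))) ∧ ∀ i ∉ I, RT.xor2 A (B i) ∉ S := by
  refine use_zero ?_
  have h := MeasureTheory.ae_iff.1 hS
  simp only [not_not] at h
  exact h

theorem collapse_all (B : ℕ → Oracle) : ∃ A : Oracle, ∀ i, Collapse (RT.xor2 A (B i)) :=
  (RT.use_p RT.null_empty').1 B

end Pool.Agent.TH733.RG
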