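import Pool.Agent.TH733.RT.Main

/-!
# A Borel-Cantelli lemma for null sets
-/

set_option autoImplicit false

namespace Pool.Agent.TH733.RG

open MeasureTheory Filter Pool.Agent.NPC Pool.Agent.H620R2.Gauge
open Pool.Agent.H628R3.RO (randomOracle)
open Pool.Agent.TH733.RT (slowG meas_bits measurable_bits)

theorem summable_poly (P : Polynomial ℕ) :
    Summable (fun n : ℕ => ((P.eval n : ℕ) : ℝ) * (1 / 2) ^ n) := by
  induction P using Polynomial.induction_on' with
  | add p q hp hq =>
    refine (hp.add hq).congr fun n => ?_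
    rw [Polynomial.eval_add]
    push_cast
    ring
  | monomial k a =>
    have h := summable_pow_mul_geometric_of_norm_lt_one k (r := (1 / 2 : ℝ)) (by norm_num)
    refine (h.mul_left (a : ℝ)).congr fun n => ?_
    rw [Polynomial.eval_monomial]
    push_cast
    ring

/-- **Borel-Cantelli.** If the event `E n` depends only on the strings of length at most `N n` in
the oracle, where `N` is polynomially bounded, and its probability is at most `2 ^ (-n)` for large
`n`, then the oracles in infinitely many of the `E n` are a null set for the gauge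
`1 + log (1 + log N)`. -/
theorem null_of_local {E : ℕ → Set Oracle} {N : ℕ → ℕ} {P : Polynomial ℕ}
    (hN : ∀ n, N n ≤ P.eval n)
    (hloc : ∀ n (A A' : Oracle), (∀ x : List Bool, x.length ≤ N n → A x = A' x) →
      A ∈ E n → A' ∈ E n)
    (hp : ∀ᶠ n : ℕ in atTop, randomOracle (E n) ≤ ENNReal.ofReal ((1 / 2) ^ n)) :
    Null slowG {A : Oracle | ∃ᶠ n in atTop, A ∈ E n} := by
  intro δ hδ
  obtain ⟨n₀, hn₀⟩ := eventually_atTop.1 hp
  set a : ℕ → ℝ := fun n =>
    (((2 * P + Polynomial.C 4 : Polynomial ℕ).eval n : ℕ) : ℝ) * (1 / 2) ^ n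
    with ha
  have ha0 : ∀ n, 0 ≤ a n := fun n => by
    rw [ha]
    positivity
  have hsum : Summable a := summable_poly _
  obtain ⟨n₂, hn₂⟩ := ((tendsto_sum_nat_add a).eventually (gt_mem_nhds hδ)).exists_forall_of_atTop
  set n₁ := max n₀ n₂ with hn₁
  have htail : ∑' k, a (k + n₁) ≤ δ := (hn₂ n₁ (le_max_right _ _)).le
  -- the covers
  set m : ℕ → ℕ := fun n => 2 ^ (N n + 1) with hm
  set T : (n : ℕ) → Set (Fin (m n) → Bool) := fun n => (RT.bits (m n)) '' E n with hT
  refine ⟨⋃ k : ℕ, (fun t : Fin (m (k + n₁)) → Bool => List.ofFn t) '' T (k + n₁), ?_, ?_⟩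
  · intro A hA
    rw [Set.mem_ofPred_eq] at hA
    obtain ⟨n, hn, hAn⟩ := frequently_atTop.1 hA n₁
    obtain ⟨k, rfl⟩ := Nat.exists_eq_add_of_le' hn
    refine ⟨List.ofFn (RT.bits (m (k + n₁)) A), ?_, ?_⟩
    · exact Set.mem_iUnion.2 ⟨k, _, ⟨A, hAn, rfl⟩, rfl⟩
    · intro i hi
      simp [RT.bits]
  · refine (ENNReal.tsum_iUnion_le_tsum
      (fun σ : List Bool => ENNReal.ofReal (2 ^ (slowG σ.length - σ.length))) _).trans ?_
    have hone : ∀ n ≥ n₀, ∑' σ : ((fun t : Fin (m n) → Bool => List.ofFn t) '' T n : Set (List Bool)),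
        ENNReal.ofReal (2 ^ (slowG σ.1.length - σ.1.length)) ≤ ENNReal.ofReal (a n) := by
      intro n hn
      rw [tsum_image (fun σ : List Bool => ENNReal.ofReal (2 ^ (slowG σ.length - σ.length)))
        (List.ofFn_injective.injOn)]
      have h1 : ∀ t : T n, ENNReal.ofReal (2 ^ (slowG (List.ofFn t.1).length -
          (List.ofFn t.1).length)) = ENNReal.ofReal (2 ^ slowG (m n)) *
          randomOracle {A : Oracle | RT.bits (m n) A = t.1} := by
        intro t
        rw [List.length_ofFn, meas_bits, sub_eq_add_neg, Real.rpow_add (by norm_num),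
          ENNReal.ofReal_mul (by positivity), H943R5.GC.N6.half_pow]
      rw [tsum_congr h1, ENNReal.tsum_mul_left]
      have h2 : ∑' t : T n, randomOracle {A : Oracle | RT.bits (m n) A = t.1} ≤
          randomOracle (E n) := by
        rw [← measure_iUnion]
        · refine measure_mono ?_
          intro A hA
          obtain ⟨⟨t, A', hA', rfl⟩, hAt⟩ := Set.mem_iUnion.1 hA
          refine hloc n A' A (fun x hx => ?_) hA'
          have h3 : idx x < m n := by
            have h5 := idx_lt x
            have h6 : 2 ^ (x.length + 1) ≤ 2 ^ (N n + 1) :=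
              Nat.pow_le_pow_right (by norm_num) (by omega)
            rw [hm]
            dsimp only
            omega
          have h4 := congrFun hAt ⟨idx x, h3⟩
          unfold RT.bits at h4
          simp only [str_idx] at h4
          exact h4.symm
        · intro t t' htt
          refine Set.disjoint_left.2 fun A h3 h4 => htt (Subtype.ext ?_)
          rw [Set.mem_ofPred_eq] at h3 h4
          rw [← h3, ← h4]
        · exact fun t => measurable_bits _ _
      refine (mul_le_mul' le_rfl (h2.trans (hn₀ n hn))).trans ?_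
      rw [← ENNReal.ofReal_mul (by positivity)]
      refine ENNReal.ofReal_le_ofReal ?_
      rw [ha]
      dsimp only
      refine mul_le_mul_of_nonneg_right ?_ (by positivity)
      have h5 : (2 : ℝ) ^ slowG (m n) = 2 * ((N n : ℝ) + 1 + 1) := by
        unfold RT.slowG
        rw [Real.rpow_add (by norm_num), Real.rpow_one, Real.rpow_logb (by norm_num) (by norm_num)
          (by positivity), hm]
        dsimp only
        rw [Nat.log_pow (by norm_num)]
        push_cast
        ring
      rw [h5, Polynomial.eval_add, Polynomial.eval_mul, Polynomial.eval_C, Polynomial.eval_ofNat]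
      have h6 : (N n : ℝ) ≤ P.eval n := by exact_mod_cast hN n
      push_cast
      linarith
    refine (ENNReal.tsum_le_tsum fun k => hone (k + n₁)
      ((le_max_left n₀ n₂).trans (Nat.le_add_left _ _))).trans ?_
    rw [← ENNReal.ofReal_tsum_of_nonneg (fun k => ha0 _) ((summable_nat_add_iff n₁).2 hsum)]
    exact ENNReal.ofReal_le_ofReal htail

end Pool.Agent.TH733.RG
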