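import Pool.Agent.TH733.RT.Code

/-!
# One oracle that codes the computations relative to many of its translates, arbitrarily slowly

`B 0, B 1, ...` are arbitrary oracles and `I` is a set of numbers. The oracle `coded c V I B` is
such that, for all `j` in `I`, the translate of the coded oracle by `B j` (the symmetric difference)
contains its own code strings: the string `c ⟨inv j, e⟩ x` is in the translate if and only if
`V e x D` holds for the translate `D`. Here `inv j` grows as fast as we like.
-/

set_option autoImplicit false

namespace Pool.Agent.TH733.RG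

open Pool.Agent.NPC Pool.Agent.H620R2.Gauge Pool.Agent.H622R2.Exp
open Pool.Agent.TH733.RT (xor2 Good' cc cc_inj)

/-- the number of the translate to which the code strings with index `e` belong; `h` is a slowly
growing function -/
def own (h : ℕ → ℕ) (e : ℕ) : ℕ := h e.unpair.1

/-- a slowly growing function: it takes all values and is monotone -/
structure Lazy (h : ℕ → ℕ) : Prop where
  mono : Monotone h
  surj : Function.Surjective h

theorem Lazy.own_le {h : ℕ → ℕ} (hh : Lazy h) {e n : ℕ} (hen : e ≤ n) : own h e ≤ h n :=
  hh.mono ((Nat.unpair_left_le e).trans hen)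

/-- the first argument at which the value is `j` -/
noncomputable def Lazy.inv {h : ℕ → ℕ} (hh : Lazy h) (j : ℕ) : ℕ := (hh.surj j).choose

theorem Lazy.own_pair {h : ℕ → ℕ} (hh : Lazy h) (j e : ℕ) :
    own h (Nat.pair (hh.inv j) e) = j := by
  unfold own
  rw [Nat.unpair_pair]
  exact (hh.surj j).choose_spec

/-- the predicates that have to be coded -/
def comb (h : ℕ → ℕ) (c : ℕ → List Bool → List Bool) (V : ℕ → List Bool → Oracle → Prop)
    (I : Set ℕ) (B : ℕ → Oracle) : ℕ × List Bool → Oracle → Prop := fun p A =>
  own h p.1 ∈ I ∧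
    (V p.1.unpair.2 p.2 (xor2 A (B (own h p.1))) ↔ ¬ B (own h p.1) (c p.1 p.2) = true)

/-- the oracle -/
noncomputable def coded (h : ℕ → ℕ) (c : ℕ → List Bool → List Bool)
    (V : ℕ → List Bool → Oracle → Prop) (I : Set ℕ) (B : ℕ → Oracle) : Oracle :=
  C2.Phi (cc c) (comb h c V I B) (fun _ => false)

variable {h : ℕ → ℕ} {c : ℕ → List Bool → List Bool} {V : ℕ → List Bool → Oracle → Prop}

theorem comb_local (hV : Good' c V) (I : Set ℕ) (B : ℕ → Oracle) (p : ℕ × List Bool)
    (A A' : Oracle) (hA : ∀ z : List Bool, z.length < (cc c p).length → A z = A' z) :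
    comb h c V I B p A ↔ comb h c V I B p A' := by
  unfold comb
  rw [hV.loc p.1 p.2 (xor2 A (B (own h p.1))) (xor2 A' (B (own h p.1))) fun z hz => by
    unfold xor2
    rw [hA z hz]]

theorem coded_iff (hV : Good' c V) (I : Set ℕ) (B : ℕ → Oracle) (e : ℕ) (x : List Bool) :
    coded h c V I B (c e x) = true ↔ comb h c V I B (e, x) (coded h c V I B) :=
  C2.Phi_code (cc c) (cc_inj hV) (comb h c V I B) (comb_local hV I B) (fun _ => false) (e, x)

/-- the translates by the oracles in the list are closed under coding -/
theorem coded_code (hh : Lazy h) (hV : Good' c V) {I : Set ℕ} (B : ℕ → Oracle) {j : ℕ}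
    (hj : j ∈ I) (e : ℕ) (x : List Bool) :
    xor2 (coded h c V I B) (B j) (c (Nat.pair (hh.inv j) e) x) = true ↔
      V e x (xor2 (coded h c V I B) (B j)) := by
  have h' := coded_iff (h := h) hV I B (Nat.pair (hh.inv j) e) x
  unfold comb at h'
  dsimp only at h'
  rw [hh.own_pair, Nat.unpair_pair] at h'
  dsimp only at h'
  generalize hc : coded h c V I B (c (Nat.pair (hh.inv j) e) x) = u at h'
  generalize hb : B j (c (Nat.pair (hh.inv j) e) x) = b at h'
  have h0 : xor2 (coded h c V I B) (B j) (c (Nat.pair (hh.inv j) e) x) = (u ^^ b) := by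
    unfold xor2
    rw [hc, hb]
  rw [h0]
  by_cases hv : V e x (xor2 (coded h c V I B) (B j))
  · cases u <;> cases b <;> simp_all
  · cases u <;> cases b <;> simp_all

/-- off the code strings the coded oracle is empty -/
theorem coded_not (I : Set ℕ) (B : ℕ → Oracle) (y : List Bool) (hy : ∀ e x, y ≠ c e x) :
    coded h c V I B y = false := C2.Phi_not (cc c) _ _ y fun p => hy p.1 p.2

/-- The coded oracle on the strings of length at most `n` depends only on `I` up to `h n` and on
the oracles `B j`, `j ≤ h n`, `j ∈ I`, on the strings of length at most `n`. -/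
theorem coded_congr (hh : Lazy h) (hV : Good' c V) {I I' : Set ℕ} {B B' : ℕ → Oracle} {n : ℕ}
    (hI : ∀ j ≤ h n, (j ∈ I ↔ j ∈ I'))
    (hB : ∀ j ≤ h n, j ∈ I → ∀ z : List Bool, z.length ≤ n → B j z = B' j z) :
    ∀ y : List Bool, y.length ≤ n → coded h c V I B y = coded h c V I' B' y := by
  have key : ∀ m : ℕ, ∀ y : List Bool, y.length = m → y.length ≤ n →
      coded h c V I B y = coded h c V I' B' y := by
    intro m
    induction m using Nat.strong_induction_on with
    | _ m ih =>
      intro y hm hy
      by_cases hc : ∃ e x, y = c e x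
      · obtain ⟨e, x, rfl⟩ := hc
        rw [Bool.eq_iff_iff, coded_iff hV, coded_iff hV]
        have hj : own h e ≤ h n := hh.own_le (by
          have h4 := hV.long e x
          omega)
        unfold comb
        dsimp only
        by_cases hmem : own h e ∈ I
        · have hmem' := (hI _ hj).1 hmem
          have h5 : B (own h e) (c e x) = B' (own h e) (c e x) := hB _ hj hmem _ hy
          have h6 : V e.unpair.2 x (xor2 (coded h c V I B) (B (own h e))) ↔
              V e.unpair.2 x (xor2 (coded h c V I' B') (B' (own h e))) := by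
            refine hV.loc e x _ _ fun z hz => ?_
            unfold xor2
            rw [ih z.length (by omega) z rfl (by omega), hB _ hj hmem z (by omega)]
          rw [h5, h6]
          exact ⟨fun h => ⟨hmem', h.2⟩, fun h => ⟨hmem, h.2⟩⟩
        · have hmem' : own h e ∉ I' := fun h => hmem ((hI _ hj).2 h)
          exact ⟨fun h => absurd h.1 hmem, fun h => absurd h.1 hmem'⟩
      · push Not at hc
        rw [coded_not I B y hc, coded_not I' B' y hc]
  exact fun y hy => key y.length y rfl hy

end Pool.Agent.TH733.RG
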