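import Pool.Agent.TH733.RG.Zero
import Pool.Agent.TH93.ML.Defs
import Pool.Agent.H622R2.Exp.M1
import Pool.Agent.H620R2.Gauge.S
import Pool.Agent.H628R3.RO.K2

/-!
# The sets which can be read off from the oracle have measure zero

The gambler of `TH771.PN.Gam` and `TH771.PN.Alg` (a teammate's files) is adapted: on the level `s` he
bets on the bits with the numbers `s`, `s + 1`, ... (`3 * (log s + 1)` of them), and he predicts the
bit number `n` with the question `1^e 0 1^m 0 str n` to the oracle, where `e` and `m` depend on `s`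
only.
-/

set_option autoImplicit false

namespace Pool.Agent.TH733.RG.Gam

open Pool.Agent.NPC Pool.Agent.H620R2.Gauge
open Pool.Agent.TH93.ML (NullC chi dya enc tj)

/-- the logarithm -/
def lo (s : ℕ) : ℕ := Nat.log 2 (s + 1)

theorem two_pow_lo (s : ℕ) : 2 ^ lo s ≤ s + 1 := Nat.pow_log_le_self 2 (by omega)

theorem lt_two_pow_lo (s : ℕ) : s + 1 < 2 ^ (lo s + 1) := Nat.lt_pow_succ_log_self (by norm_num) _

theorem lo_mono {s s' : ℕ} (h : s ≤ s') : lo s ≤ lo s' := Nat.log_mono_right (by omega)

theorem lo_eq (s : ℕ) : lo s = (s + 1).bits.length - 1 := by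
  rw [Nat.size_eq_bits_len]
  have h1 : (s + 1).size ≤ lo s + 1 := Nat.size_le.2 (lt_two_pow_lo s)
  have h2 : lo s < (s + 1).size := Nat.lt_size.2 (two_pow_lo s)
  omega

theorem lo_le (s : ℕ) : lo s ≤ s := by
  have h1 := two_pow_lo s
  have h2 : lo s < 2 ^ lo s := Nat.lt_two_pow_self
  omega

/-- the number of the bits of the level -/
def ln (s : ℕ) : ℕ := 3 * (lo s + 1)

/-- the first number in the questions -/
def eN (s : ℕ) : ℕ := (s + 1 - 2 ^ lo s) % (lo s + 1)

/-- the second number in the questions -/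
def mN (s : ℕ) : ℕ := (s + 1 - 2 ^ lo s) / (lo s + 1)

theorem eN_le (s : ℕ) : eN s ≤ s := by
  have h1 : 0 < 2 ^ lo s := by positivity
  have h2 : eN s ≤ s + 1 - 2 ^ lo s := Nat.mod_le _ _
  omega

theorem mN_le (s : ℕ) : mN s ≤ s := by
  have h1 : 0 < 2 ^ lo s := by positivity
  have h2 : mN s ≤ s + 1 - 2 ^ lo s := Nat.div_le_self _ _
  omega

/-- the question about the bit number `s + i` -/
def qs (s i : ℕ) : List Bool :=
  List.replicate (eN s) true ++ false :: (List.replicate (mN s) true ++ false :: str (s + i))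

/-- the amount for the level `s` -/
noncomputable def wt (s : ℕ) : ℝ := 1 / 2 ^ (2 * lo s + 1)

/-- the amount for all levels from `N` on -/
noncomputable def rm (N : ℕ) : ℝ := (3 * 2 ^ lo N - ((N : ℝ) + 1)) / 2 ^ (2 * lo N + 1)

theorem rm_zero : rm 0 = 1 := by
  have : lo 0 = 0 := by unfold lo; simp
  unfold rm
  rw [this]
  norm_num

theorem lt_two_pow_lo' (s : ℕ) : (s : ℝ) + 1 < 2 * 2 ^ lo s := by
  have h := lt_two_pow_lo s
  rw [pow_succ] at h
  have h2 : ((s + 1 : ℕ) : ℝ) < ((2 ^ lo s * 2 : ℕ) : ℝ) := by exact_mod_cast h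
  push_cast at h2
  linarith

theorem rm_nonneg (N : ℕ) : 0 ≤ rm N := by
  unfold rm
  have h := lt_two_pow_lo' N
  have h2 : (0 : ℝ) < 2 ^ lo N := by positivity
  exact div_nonneg (by linarith) (by positivity)

theorem rm_step (N : ℕ) : rm N = rm (N + 1) + wt N := by
  have h1 := two_pow_lo N
  have h2 := lt_two_pow_lo N
  have h3 := two_pow_lo (N + 1)
  have h4 := lt_two_pow_lo (N + 1)
  have h5 := lo_mono (Nat.le_succ N)
  rcases Nat.eq_or_lt_of_le h5 with h | h
  · unfold rm wt
    rw [← Nat.succ_eq_add_one N, ← h]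
    push_cast
    field_simp
    ring
  · have h6 : lo (N + 1) = lo N + 1 := by
      by_contra hne
      have h7 : lo N + 2 ≤ lo (N + 1) := by
        have : lo N < lo (N + 1) := h
        omega
      have h8 : 2 ^ (lo N + 2) ≤ N + 1 + 1 := (Nat.pow_le_pow_right (by norm_num) h7).trans h3
      rw [pow_succ] at h8
      omega
    have h9 : 2 ^ (lo N + 1) ≤ N + 1 + 1 := by rw [← h6]; exact h3
    have h10 : (N : ℝ) + 1 + 1 = 2 * 2 ^ lo N := by
      have : N + 1 + 1 = 2 ^ (lo N + 1) := by omega
      have h11 : ((N + 1 + 1 : ℕ) : ℝ) = ((2 ^ (lo N + 1) : ℕ) : ℝ) := by rw [this]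
      push_cast at h11
      rw [h11, pow_succ]
      ring
    unfold rm wt
    rw [h6]
    push_cast
    have e1 : (N : ℝ) = 2 * 2 ^ lo N - 2 := by linarith
    rw [e1]
    have e2 : (0 : ℝ) < 2 ^ lo N := by positivity
    have e3 : (2 : ℝ) ^ (2 * (lo N + 1) + 1) = 4 * 2 ^ (2 * lo N + 1) := by ring
    rw [e3, pow_succ (2 : ℝ) (lo N)]
    have e4 : (0 : ℝ) < 2 ^ (2 * lo N + 1) := by positivity
    field_simp
    ring

open Classical in
/-- the factor of the level `s` -/
noncomputable def bt (A : Oracle) (s : ℕ) (w : List Bool) : ℕ :=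
  if ∀ i < min (w.length - s) (ln s), w.getD (s + i) false = A (qs s i) then
    2 ^ min (w.length - s) (ln s) else 0

theorem bt_eq_one {A : Oracle} {s : ℕ} {w : List Bool} (h : w.length ≤ s) : bt A s w = 1 := by
  unfold bt
  have h1 : min (w.length - s) (ln s) = 0 := by
    rw [Nat.sub_eq_zero_of_le h, Nat.zero_min]
  rw [h1]
  split_ifs with h3
  · rfl
  · exact absurd (fun i hi => absurd hi (Nat.not_lt_zero i)) h3

theorem bt_step (A : Oracle) (s : ℕ) (w : List Bool) :
    bt A s (w ++ [false]) + bt A s (w ++ [true]) = 2 * bt A s w := by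
  rcases Nat.lt_or_ge w.length s with h | h
  · rw [bt_eq_one h.le, bt_eq_one (by simpa using h), bt_eq_one (by simpa using h)]
  unfold bt
  have hlen : ∀ b : Bool, (w ++ [b]).length = w.length + 1 := fun b => by simp
  rw [hlen, hlen]
  have hget : ∀ (b : Bool) (i : ℕ), s + i < w.length →
      (w ++ [b]).getD (s + i) false = w.getD (s + i) false := by
    intro b i hi
    rw [List.getD_eq_getElem?_getD, List.getD_eq_getElem?_getD, List.getElem?_append_left hi]
  rcases Nat.lt_or_ge (w.length - s) (ln s) with h1 | h1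
  · have e1 : min (w.length - s) (ln s) = w.length - s := min_eq_left h1.le
    have e2 : min (w.length + 1 - s) (ln s) = (w.length - s) + 1 := by
      rw [min_eq_left (by omega)]
      omega
    rw [e1, e2]
    have hiff : ∀ b : Bool, (∀ i < w.length - s + 1, (w ++ [b]).getD (s + i) false = A (qs s i)) ↔
        (∀ i < w.length - s, w.getD (s + i) false = A (qs s i)) ∧
          b = A (qs s (w.length - s)) := by
      intro b
      constructor
      · intro h2
        refine ⟨fun i hi => ?_, ?_⟩
        · rw [← hget b i (by omega)]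
          exact h2 i (by omega)
        · rw [← h2 (w.length - s) (by omega), List.getD_eq_getElem?_getD,
            List.getElem?_append_right (by omega)]
          have : s + (w.length - s) - w.length = 0 := by omega
          rw [this]
          rfl
      · rintro ⟨h2, h3⟩ i hi
        rcases Nat.lt_or_ge i (w.length - s) with h4 | h4
        · rw [hget b i (by omega)]
          exact h2 i h4
        · have h5 : i = w.length - s := by omega
          rw [h5, ← h3, List.getD_eq_getElem?_getD, List.getElem?_append_right (by omega)]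
          have : s + (w.length - s) - w.length = 0 := by omega
          rw [this]
          rfl
    simp only [hiff]
    by_cases h2 : ∀ i < w.length - s, w.getD (s + i) false = A (qs s i)
    · cases hb : A (qs s (w.length - s))
      · rw [if_pos ⟨h2, rfl⟩, if_neg (by simp), if_pos h2, pow_succ]
        ring
      · rw [if_neg (by simp), if_pos ⟨h2, rfl⟩, if_pos h2, pow_succ]
        ring
    · rw [if_neg (fun h3 => h2 h3.1), if_neg (fun h3 => h2 h3.1), if_neg h2]
  · have e1 : min (w.length - s) (ln s) = ln s := min_eq_right h1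
    have e2 : min (w.length + 1 - s) (ln s) = ln s := min_eq_right (by omega)
    rw [e1, e2]
    have hiff : ∀ b : Bool, (∀ i < ln s, (w ++ [b]).getD (s + i) false = A (qs s i)) ↔
        (∀ i < ln s, w.getD (s + i) false = A (qs s i)) := by
      intro b
      refine forall_congr' fun i => forall_congr' fun hi => ?_
      rw [hget b i (by omega)]
    simp only [hiff]
    ring

/-- the density functions -/
noncomputable def dn (A : Oracle) (k : ℕ) (w : List Bool) : ℝ :=
  (1 / 2) ^ k * (∑ s ∈ Finset.range w.length, wt s * bt A s w + rm w.length)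

theorem dn_nil (A : Oracle) (k : ℕ) : dn A k [] = (1 / 2) ^ k := by
  unfold dn
  rw [List.length_nil, Finset.range_zero, Finset.sum_empty, rm_zero]
  ring

theorem wt_nonneg (s : ℕ) : 0 ≤ wt s := by
  unfold wt
  positivity

theorem dn_nonneg (A : Oracle) (k : ℕ) (w : List Bool) : 0 ≤ dn A k w := by
  unfold dn
  refine mul_nonneg (by positivity) (add_nonneg (Finset.sum_nonneg fun s _ => ?_) (rm_nonneg _))
  exact mul_nonneg (wt_nonneg s) (by positivity)

theorem dn_step (A : Oracle) (k : ℕ) (w : List Bool) :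
    (dn A k (w ++ [false]) + dn A k (w ++ [true])) / 2 = dn A k w := by
  unfold dn
  have hlen : ∀ b : Bool, (w ++ [b]).length = w.length + 1 := fun b => by simp
  rw [hlen, hlen, rm_step w.length]
  have h1 : ∑ s ∈ Finset.range (w.length + 1), wt s * (bt A s (w ++ [false]) : ℝ) +
      ∑ s ∈ Finset.range (w.length + 1), wt s * (bt A s (w ++ [true]) : ℝ) =
      2 * (∑ s ∈ Finset.range w.length, wt s * (bt A s w : ℝ) + wt w.length) := by
    rw [← Finset.sum_add_distrib]
    have h2 : ∀ s ∈ Finset.range (w.length + 1), wt s * (bt A s (w ++ [false]) : ℝ) +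
        wt s * (bt A s (w ++ [true]) : ℝ) = 2 * (wt s * (bt A s w : ℝ)) := by
      intro s _
      have h3 := bt_step A s w
      have h4 : (bt A s (w ++ [false]) : ℝ) + (bt A s (w ++ [true]) : ℝ) =
          2 * (bt A s w : ℝ) := by exact_mod_cast h3
      rw [← mul_add, h4]
      ring
    rw [Finset.sum_congr rfl h2, ← Finset.mul_sum, Finset.sum_range_succ, bt_eq_one le_rfl]
    push_cast
    ring
  linear_combination ((1 / 2 : ℝ) ^ k / 2) * h1

/-- If the predictions of a level are right then the gambler wins. -/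
theorem one_le_dn {A : Oracle} {s k : ℕ} (hk : k ≤ lo s) {L : Set (List Bool)}
    (h : ∀ i < ln s, (A (qs s i) = true ↔ str (s + i) ∈ L)) :
    1 ≤ dn A k (chi L (s + ln s)) := by
  have hlen : (chi L (s + ln s)).length = s + ln s := by
    unfold chi
    simp
  have h1 : bt A s (chi L (s + ln s)) = 2 ^ ln s := by
    unfold bt
    rw [hlen]
    have e1 : min (s + ln s - s) (ln s) = ln s := by
      rw [Nat.add_sub_cancel_left, min_self]
    rw [e1, if_pos]
    intro i hi
    rw [Bool.eq_iff_iff, h i hi]
    unfold chi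
    rw [List.getD_eq_getElem?_getD, List.getElem?_map, List.getElem?_range (by omega)]
    simp
  have hln : 0 < ln s := by unfold ln; omega
  unfold dn
  rw [hlen]
  have h2 : wt s * (bt A s (chi L (s + ln s)) : ℝ) ≤
      ∑ s' ∈ Finset.range (s + ln s), wt s' * (bt A s' (chi L (s + ln s)) : ℝ) :=
    Finset.single_le_sum (f := fun s' => wt s' * (bt A s' (chi L (s + ln s)) : ℝ))
      (fun s' _ => mul_nonneg (wt_nonneg s') (by positivity)) (Finset.mem_range.2 (by omega))
  rw [h1] at h2
  have h3 : (2 : ℝ) ^ k ≤ wt s * ((2 ^ ln s : ℕ) : ℝ) := by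
    unfold wt ln
    push_cast
    rw [one_div, inv_mul_eq_div, le_div_iff₀ (by positivity), ← pow_add]
    exact pow_le_pow_right₀ (by norm_num) (by omega)
  have h4 := rm_nonneg (s + ln s)
  calc (1 : ℝ) = (1 / 2) ^ k * 2 ^ k := by rw [← mul_pow]; norm_num
    _ ≤ _ := mul_le_mul_of_nonneg_left (by linarith) (by positivity)

/-! ### The algorithm -/

/-- look up the bit of `y` in the table `c` of the bits of the strings in `L` -/
def lk (L : List (List Bool)) (c y : List Bool) : Bool :=
  (L.zip c).any (fun p => decide (p.1 = y) && p.2)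

theorem poly_lk {α : Type} [TEnc α] {L : α → List (List Bool)} {c y : α → List Bool}
    (hL : Poly L) (hc : Poly c) (hy : Poly y) : Poly (fun a => lk (L a) (c a) (y a)) := by
  unfold lk
  refine Poly.any (p := fun a (p : List Bool × Bool) => decide (p.1 = y a) && p.2)
    (Poly.zip hL hc) ?_
  exact Poly.and (Poly.decide_eq (Poly.fst (Poly.snd Poly.id)) (hy.comp (Poly.fst Poly.id)))
    (Poly.snd (Poly.snd Poly.id))

theorem zip_map (L : List (List Bool)) (B : Oracle) :
    L.zip (L.map B) = L.map fun q => (q, B q) := by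
  induction L with
  | nil => rfl
  | cons a L ih => simp [ih]

theorem lk_map {L : List (List Bool)} {B : Oracle} {y : List Bool} :
    lk L (L.map B) y = true ↔ y ∈ L ∧ B y = true := by
  unfold lk
  rw [zip_map, List.any_eq_true]
  constructor
  · rintro ⟨p, hp, h⟩
    obtain ⟨q, hq, rfl⟩ := List.mem_map.1 hp
    simp only [Bool.and_eq_true, decide_eq_true_eq] at h
    obtain ⟨rfl, h⟩ := h
    exact ⟨hq, h⟩
  · rintro ⟨h1, h2⟩
    exact ⟨(y, B y), List.mem_map.2 ⟨y, h1, rfl⟩, by simp [h2]⟩

section

variable {α : Type} [TEnc α]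

theorem u_min {s b : α → ℕ} (hs : Poly s) (hb : UPoly b) : UPoly (fun a => min (s a) (b a)) :=
  UPoly.of_le (Poly.min hs hb.toPoly) hb fun _ => min_le_right _ _

theorem u_lo {s : α → ℕ} (hs : UPoly s) : UPoly (fun a => lo (s a)) :=
  UPoly.of_le ((Poly.sub (Poly.length (Poly.natBits (Poly.succ hs.toPoly)))
    (NPC.Poly.const 1)).congr fun a => (lo_eq (s a)).symm) hs fun a => lo_le (s a)

theorem p_off {s : α → ℕ} (hs : UPoly s) : Poly (fun a => s a + 1 - 2 ^ lo (s a)) :=
  Poly.sub (Poly.add hs.toPoly (NPC.Poly.const 1))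
    (Pool.Agent.H622R2.Exp.M1.poly_two_pow (u_lo hs))

theorem u_eN {s : α → ℕ} (hs : UPoly s) : UPoly (fun a => eN (s a)) :=
  UPoly.of_le (Poly.mod (p_off hs) (Poly.add (u_lo hs).toPoly (NPC.Poly.const 1))) hs
    fun a => eN_le (s a)

theorem u_mN {s : α → ℕ} (hs : UPoly s) : UPoly (fun a => mN (s a)) :=
  UPoly.of_le (Poly.div (p_off hs) (Poly.add (u_lo hs).toPoly (NPC.Poly.const 1))) hs
    fun a => mN_le (s a)

theorem p_str {s : α → ℕ} (hs : Poly s) : Poly (fun a => str (s a)) :=
  Poly.tail (Poly.reverse (Poly.natBits (Poly.succ hs)))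

theorem p_qs {s i : α → ℕ} (hs : UPoly s) (hi : Poly i) : Poly (fun a => qs (s a) (i a)) := by
  unfold qs
  exact Poly.append (Pool.Agent.H622R2.Exp.M1.poly_rep (u_eN hs) true) (Poly.cons (NPC.Poly.const false)
    (Poly.append (Pool.Agent.H622R2.Exp.M1.poly_rep (u_mN hs) true) (Poly.cons (NPC.Poly.const false)
      (p_str (Poly.add hs.toPoly hi)))))

end

/-- the prefix in the input -/
def wz (z : List Bool) : List Bool := (unpair (unpair (unpair z).2).2).2

/-- the number `k` in the input -/
def kz (z : List Bool) : ℕ := (unpair (unpair z).2).1.length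

theorem wz_enc (j k r : ℕ) (w : List Bool) : wz (enc j k r w) = w := by
  unfold wz enc
  rw [unpair_pairBits, unpair_pairBits, unpair_pairBits]

theorem kz_enc (j k r : ℕ) (w : List Bool) : kz (enc j k r w) = k := by
  unfold kz enc
  rw [unpair_pairBits, unpair_pairBits, List.length_replicate]

/-- the level, capped -/
def sc (w : List Bool) (s : ℕ) : ℕ := min s w.length

/-- the questions -/
def Qw (w : List Bool) : List (List Bool) :=
  (List.range w.length).flatMap fun s => (List.range (ln (sc w s))).map fun i => qs (sc w s) i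

theorem u_sc {α : Type} [TEnc α] {w : α → List Bool} {s : α → ℕ} (hw : Poly w) (hs : Poly s) :
    UPoly (fun a => sc (w a) (s a)) := u_min hs (UPoly.length hw)

theorem u_ln {α : Type} [TEnc α] {s : α → ℕ} (hs : UPoly s) : UPoly (fun a => ln (s a)) :=
  UPoly.mul (UPoly.const 3) (UPoly.add (u_lo hs) (UPoly.const 1))

theorem p_Qw : Poly Qw := by
  unfold Qw
  refine Poly.flatMap (F := fun w s => (List.range (ln (sc w s))).map fun i =>
    qs (sc w s) i) (UPoly.range (UPoly.length Poly.id)) ?_
  have h1 : UPoly (fun p : List Bool × ℕ => sc p.1 p.2) :=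
    u_sc (Poly.fst Poly.id) (Poly.snd Poly.id)
  refine NPC.Poly.map (F := fun (p : List Bool × ℕ) i => qs (sc p.1 p.2) i)
    (UPoly.range (u_ln h1)) ?_
  exact p_qs (h1.comp (Poly.fst Poly.id)) (Poly.snd Poly.id)

theorem sc_eq {w : List Bool} {s : ℕ} (h : s < w.length) : sc w s = s := min_eq_left h.le

theorem lk_eq {A : Oracle} {w : List Bool} {s i : ℕ} (h : s < w.length) (hi : i < ln s) :
    lk (Qw w) ((Qw w).map A) (qs s i) = A (qs s i) := by
  rw [Bool.eq_iff_iff, lk_map]
  refine ⟨fun h => h.2, fun h1 => ⟨?_, h1⟩⟩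
  unfold Qw
  rw [List.mem_flatMap]
  refine ⟨s, List.mem_range.2 h, List.mem_map.2 ⟨i, ?_, ?_⟩⟩
  · rw [sc_eq h]
    exact List.mem_range.2 hi
  · rw [sc_eq h]

/-- the factor of the level, from the answers -/
def bq (w c : List Bool) (s : ℕ) : ℕ :=
  if (List.range (min (w.length - sc w s) (ln (sc w s)))).all (fun i =>
      decide (w.getD (sc w s + i) false = lk (Qw w) c (qs (sc w s) i))) then
    2 ^ min (w.length - sc w s) (ln (sc w s)) else 0

theorem p_bq {α : Type} [TEnc α] {w c : α → List Bool} {s : α → ℕ} (hw : Poly w)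
    (hc : Poly c) (hs : Poly s) : Poly (fun a => bq (w a) (c a) (s a)) := by
  unfold bq
  have h1 := u_sc hw hs
  have h5 : UPoly (fun a => min ((w a).length - sc (w a) (s a)) (ln (sc (w a) (s a)))) :=
    u_min (Poly.sub (UPoly.length hw).toPoly h1.toPoly) (u_ln h1)
  refine Poly.ite (Poly.decide_bool ?_) ?_ (NPC.Poly.const 0)
  · refine Poly.all (p := fun (a : α) i => decide ((w a).getD (sc (w a) (s a) + i) false =
      lk (Qw (w a)) (c a) (qs (sc (w a) (s a)) i))) h5.range ?_
    refine Poly.decide_eq (Poly.getD (hw.comp (Poly.fst Poly.id))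
      (Poly.add (h1.toPoly.comp (Poly.fst Poly.id)) (Poly.snd Poly.id)) (NPC.Poly.const false)) ?_
    exact poly_lk (p_Qw.comp (hw.comp (Poly.fst Poly.id))) (hc.comp (Poly.fst Poly.id))
      (p_qs (h1.comp (Poly.fst Poly.id)) (Poly.snd Poly.id))
  · exact Pool.Agent.H622R2.Exp.M1.poly_two_pow h5

theorem bq_eq {A : Oracle} {w : List Bool} {s : ℕ} (h : s < w.length) :
    bq w ((Qw w).map A) s = bt A s w := by
  classical
  unfold bq bt
  rw [sc_eq h]
  have e2 : (List.range (min (w.length - s) (ln s))).all (fun i =>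
      decide (w.getD (s + i) false = lk (Qw w) ((Qw w).map A) (qs s i))) = true ↔
      ∀ i < min (w.length - s) (ln s), w.getD (s + i) false = A (qs s i) := by
    rw [List.all_eq_true]
    constructor
    · intro h' i hi
      have h2 := decide_eq_true_iff.1 (h' i (List.mem_range.2 hi))
      rwa [lk_eq h (by omega)] at h2
    · intro h' i hi
      have hi' := List.mem_range.1 hi
      refine decide_eq_true_iff.2 ?_
      rw [lk_eq h (by omega)]
      exact h' i hi'
  exact if_congr e2 rfl rfl

/-- the numerator -/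
def nu (w c : List Bool) : ℕ :=
  ((List.range w.length).map fun s => 2 ^ (2 * (lo w.length - lo (sc w s))) * bq w c s).sum +
    (3 * 2 ^ lo w.length - (w.length + 1))

theorem p_nu {α : Type} [TEnc α] {w c : α → List Bool} (hw : Poly w) (hc : Poly c) :
    Poly (fun a => nu (w a) (c a)) := by
  unfold nu
  have h0 := UPoly.length hw
  have h1 := u_lo h0
  refine Poly.add (Poly.sum (NPC.Poly.map (F := fun a s =>
    2 ^ (2 * (lo (w a).length - lo (sc (w a) s))) * bq (w a) (c a) s) h0.range ?_)) ?_
  · have h2 : UPoly (fun p : α × ℕ => lo (w p.1).length) := h1.comp (Poly.fst Poly.id)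
    have h3 : UPoly (fun p : α × ℕ => sc (w p.1) p.2) :=
      u_sc (hw.comp (Poly.fst Poly.id)) (Poly.snd Poly.id)
    have h4 : UPoly (fun p : α × ℕ => lo (w p.1).length - lo (sc (w p.1) p.2)) :=
      UPoly.of_le (Poly.sub h2.toPoly (u_lo h3).toPoly) h2 fun _ => Nat.sub_le _ _
    exact Poly.mul (Pool.Agent.H622R2.Exp.M1.poly_two_pow (UPoly.mul (UPoly.const 2) h4))
      (p_bq (hw.comp (Poly.fst Poly.id)) (hc.comp (Poly.fst Poly.id)) (Poly.snd Poly.id))
  · exact Poly.sub (Poly.mul (NPC.Poly.const 3) (Pool.Agent.H622R2.Exp.M1.poly_two_pow h1))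
      (Poly.add h0.toPoly (NPC.Poly.const 1))

theorem sum_range_map (f : ℕ → ℕ) (n : ℕ) :
    ((List.range n).map f).sum = ∑ s ∈ Finset.range n, f s := by
  induction n with
  | zero => simp
  | succ n ih => rw [List.range_succ, List.map_append, List.sum_append, ih,
      Finset.sum_range_succ]; simp

/-- the algorithm -/
noncomputable def FF (A : Oracle) (z : List Bool) : List Bool :=
  false :: pairBits (nu (wz z) ((Qw (wz z)).map A)).bits
    (List.replicate (kz z + (2 * lo (wz z).length + 1)) true)

theorem isFP_FF (A : Oracle) : IsFP A (FF A) := by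
  have hw : Poly wz := by
    unfold wz
    exact Poly.snd (poly_unpair.comp (Poly.snd (poly_unpair.comp (Poly.snd poly_unpair))))
  have hk : UPoly kz := by
    unfold kz
    exact UPoly.length (Poly.fst (poly_unpair.comp (Poly.snd poly_unpair)))
  refine IsFP.tt (A := A) (Q := fun z => Qw (wz z)) (H := fun p : List Bool × List Bool =>
    false :: pairBits (nu (wz p.1) p.2).bits
      (List.replicate (kz p.1 + (2 * lo (wz p.1).length + 1)) true)) (p_Qw.comp hw) ?_
  have hw' : Poly (fun p : List Bool × List Bool => wz p.1) := hw.comp (Poly.fst Poly.id)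
  refine Poly.cons (NPC.Poly.const false) (Pool.Agent.H622R2.poly_pairBits
    (Poly.natBits (p_nu hw' (Poly.snd Poly.id))) (Pool.Agent.H622R2.Exp.M1.poly_rep ?_ true))
  exact UPoly.add (hk.comp (Poly.fst Poly.id)) (UPoly.add (UPoly.mul (UPoly.const 2)
    (u_lo (UPoly.length hw'))) (UPoly.const 1))

theorem dya_FF (A : Oracle) (j k r : ℕ) (w : List Bool) :
    dya (FF A (enc j k r w)) = dn A k w := by
  unfold FF
  rw [wz_enc, kz_enc]
  unfold dya
  dsimp only
  rw [unpair_pairBits]
  dsimp only
  rw [valB_bits, List.length_replicate]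
  unfold nu dn
  rw [sum_range_map]
  have h1 : ∑ s ∈ Finset.range w.length, 2 ^ (2 * (lo w.length - lo (sc w s))) *
      bq w ((Qw w).map A) s =
      ∑ s ∈ Finset.range w.length, 2 ^ (2 * (lo w.length - lo s)) * bt A s w := by
    refine Finset.sum_congr rfl fun s hs => ?_
    rw [Finset.mem_range] at hs
    rw [bq_eq hs, sc_eq hs]
  have h2 : w.length + 1 ≤ 3 * 2 ^ lo w.length := by
    have := lt_two_pow_lo w.length
    rw [pow_succ] at this
    omega
  rw [h1]
  push_cast [Nat.cast_sub h2]
  unfold rm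
  have h3 : ∀ s ∈ Finset.range w.length, wt s * (bt A s w : ℝ) =
      (2 ^ (2 * (lo w.length - lo s)) * (bt A s w : ℝ)) / 2 ^ (2 * lo w.length + 1) := by
    intro s hs
    rw [Finset.mem_range] at hs
    have h4 := lo_mono hs.le
    unfold wt
    have h5 : (2 : ℝ) ^ (2 * lo w.length + 1) =
        2 ^ (2 * (lo w.length - lo s)) * 2 ^ (2 * lo s + 1) := by
      rw [← pow_add]
      congr 1
      omega
    rw [h5]
    field_simp
  rw [Finset.sum_congr rfl h3, ← Finset.sum_div, ← add_div, pow_add, one_div_pow]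
  have h6 : (0 : ℝ) < 2 ^ k := by positivity
  have h7 : (0 : ℝ) < 2 ^ (2 * lo w.length + 1) := by positivity
  simp
  field_simp

/-! ### The cover -/

/-- polynomials are small against powers of two -/
theorem poly_small (P : Polynomial ℕ) : ∃ n₀ : ℕ, ∀ n ≥ n₀, P.eval n ≤ 2 ^ n := by
  obtain ⟨n₀, h⟩ := Pool.Agent.H628R3.RO.poly_le_two_pow P
  exact ⟨n₀, fun n hn => h n hn⟩

/-- **The sets which are read off from the oracle by one question with constants have measure
zero.** -/
theorem nullC (A : Oracle) (R : ℕ → Polynomial ℕ) (j : ℕ) :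
    NullC j A {L | ∃ e, ∀ x, x ∈ L ↔ A (code R e x) = true} := by
  refine ⟨dn A, FF A, isFP_FF A, fun k r w => ?_, dn_nonneg A, fun k w => ?_, fun k => ?_,
    fun k L hL => ?_⟩
  · rw [dya_FF, sub_self, abs_zero]
    positivity
  · have := dn_step A k w
    linarith
  · exact (dn_nil A k).le
  · obtain ⟨e, he⟩ := hL
    obtain ⟨n₀, hn₀⟩ := poly_small (R e * (Polynomial.X + 1) + 4 * Polynomial.X +
      Polynomial.C (e + 8))
    set l := max n₀ (max k (e + 1)) with hl
    have hl0 : n₀ ≤ l := le_max_left _ _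
    have hlk : k ≤ l := (le_max_left _ _).trans (le_max_right _ _)
    have hle : e + 1 ≤ l := (le_max_right _ _).trans (le_max_right _ _)
    have hb := hn₀ l hl0
    simp only [Polynomial.eval_add, Polynomial.eval_mul, Polynomial.eval_X, Polynomial.eval_one,
      Polynomial.eval_C, Polynomial.eval_ofNat] at hb
    set m := (R e).eval l with hm
    have h2l : 1 ≤ 2 ^ l := Nat.one_le_two_pow
    set s := 2 ^ l - 1 + (e + m * (l + 1)) with hs
    have hin : ∀ i ≤ 3 * (l + 1), lo (s + i) = l := by
      intro i hi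
      unfold lo
      rw [Nat.log_eq_iff (Or.inr ⟨by norm_num, by omega⟩)]
      rw [pow_succ]
      constructor <;> omega
    have hlo : lo s = l := hin 0 (by omega)
    have hoff : s + 1 - 2 ^ lo s = e + m * (l + 1) := by
      rw [hlo]
      omega
    have heN : eN s = e := by
      unfold eN
      rw [hoff, hlo, Nat.add_mul_mod_self_right, Nat.mod_eq_of_lt (by omega)]
    have hmN : mN s = m := by
      unfold mN
      rw [hoff, hlo, Nat.add_mul_div_right _ _ (by omega), Nat.div_eq_of_lt (by omega), zero_add]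
    refine ⟨s + ln s, one_le_dn (by rw [hlo]; exact hlk) fun i hi => ?_⟩
    have hlen : (str (s + i)).length = l := by
      rw [length_str]
      have := hin i (by unfold ln at hi; rw [hlo] at hi; omega)
      unfold lo at this
      exact this
    have hq : qs s i = code R e (str (s + i)) := by
      unfold qs code
      rw [heN, hmN, hlen]
    rw [he, hq]

end Pool.Agent.TH733.RG.Gam
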