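import Pool.Agent.TH733.RG.Meas

/-!
# Slow functions below a given gauge
-/

set_option autoImplicit false

namespace Pool.Agent.TH733.RG

open MeasureTheory Filter Pool.Agent.NPC Pool.Agent.H620R2.Gauge

/-- Below each function that tends to infinity there is a slow one. -/
theorem exists_lazy {f : ℕ → ℝ} (hf : Tendsto f atTop atTop) :
    ∃ h : ℕ → ℕ, Lazy h ∧ ∀ᶠ N : ℕ in atTop, (h (Nat.log 2 N) : ℝ) + 1 ≤ f N := by
  have h1 : ∀ j : ℕ, ∃ m : ℕ, ∀ N ≥ m, (j : ℝ) + 1 ≤ f N := fun j =>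
    eventually_atTop.1 (hf.eventually_ge_atTop ((j : ℝ) + 1))
  choose m hm using h1
  -- a strictly increasing sequence above `m`, with first value 0
  set M : ℕ → ℕ := fun j => ∑ i ∈ Finset.range j, (m (i + 1) + 1) with hM
  have hMs : StrictMono M := by
    refine strictMono_nat_of_lt_succ fun j => ?_
    rw [hM]
    dsimp only
    rw [Finset.sum_range_succ]
    omega
  have hM0 : M 0 = 0 := by simp [hM]
  have hMm : ∀ j, 1 ≤ j → m j ≤ M j := by
    intro j hj
    obtain ⟨i, rfl⟩ := Nat.exists_eq_add_of_le' hj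
    rw [hM]
    dsimp only
    rw [Finset.sum_range_succ]
    omega
  set h : ℕ → ℕ := fun n => Nat.findGreatest (fun j => M j ≤ n) n with hh
  have hP : ∀ n, M (h n) ≤ n := by
    intro n
    have := Nat.findGreatest_spec (P := fun j => M j ≤ n) (Nat.zero_le n)
      (by rw [hM0]; exact Nat.zero_le n)
    exact this
  have hval : ∀ j, h (M j) = j := by
    intro j
    apply le_antisymm
    · exact hMs.le_iff_le.1 (hP (M j))
    · exact Nat.le_findGreatest hMs.le_apply le_rfl
  refine ⟨h, ⟨fun a b hab => ?_, fun j => ⟨M j, hval j⟩⟩, ?_⟩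
  · exact Nat.findGreatest_mono (fun j hj => hj.trans hab) hab
  · filter_upwards [eventually_ge_atTop (m 0)] with N hN
    apply hm
    rcases Nat.eq_zero_or_pos (h (Nat.log 2 N)) with h0 | h0
    · rw [h0]
      exact hN
    · exact (hMm _ h0).trans ((hP _).trans (Nat.log_le_self 2 N))

/-- Null sets and gauges that are smaller from some point on. -/
theorem null_eventually {f g : ℕ → ℝ} (hfg : ∀ᶠ N : ℕ in atTop, g N ≤ f N) {S : Set Oracle}
    (hS : Null f S) : Null g S := by
  obtain ⟨n₀, hn₀⟩ := eventually_atTop.1 hfg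
  intro δ hδ
  -- short sequences do not occur in good covers
  obtain ⟨δ', hδ', hδ1, hshort⟩ : ∃ δ' : ℝ, 0 < δ' ∧ δ' ≤ δ ∧
      ∀ k < n₀, δ' < 2 ^ (f k - k) := by
    have hex : ∀ n : ℕ, ∃ δ' : ℝ, 0 < δ' ∧ δ' ≤ δ ∧ ∀ k < n, δ' < 2 ^ (f k - k) := by
      intro n
      induction n with
      | zero => exact ⟨δ, hδ, le_rfl, fun k hk => absurd hk (Nat.not_lt_zero k)⟩
      | succ n ih =>
        obtain ⟨d, h1, h2, h3⟩ := ih
        have h4 : (0 : ℝ) < 2 ^ (f n - n) := Real.rpow_pos_of_pos (by norm_num) _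
        refine ⟨min d (2 ^ (f n - n) / 2), lt_min h1 (by linarith), (min_le_left _ _).trans h2,
          fun k hk => ?_⟩
        rcases Nat.lt_succ_iff_lt_or_eq.1 hk with hk | rfl
        · exact lt_of_le_of_lt (min_le_left _ _) (h3 k hk)
        · exact lt_of_le_of_lt (min_le_right _ _) (by linarith)
    exact hex n₀
  obtain ⟨T, hT, hs⟩ := hS δ' hδ'
  refine ⟨T, hT, ?_⟩
  have hlong : ∀ σ : T, n₀ ≤ σ.1.length := by
    intro σ
    by_contra hlt
    push Not at hlt
    have h1 := (ENNReal.le_tsum (f := fun σ : T => ENNReal.ofReal (2 ^ (f σ.1.length - σ.1.length)))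
      σ).trans hs
    rw [ENNReal.ofReal_le_ofReal_iff hδ'.le] at h1
    exact absurd (hshort _ hlt) (not_lt.2 h1)
  refine le_trans (ENNReal.tsum_le_tsum fun σ => ?_) (hs.trans (ENNReal.ofReal_le_ofReal hδ1))
  refine ENNReal.ofReal_le_ofReal (Real.rpow_le_rpow_of_exponent_le (by norm_num) ?_)
  have := hn₀ _ (hlong σ)
  linarith

end Pool.Agent.TH733.RG
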