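import Pool.Agent.TH733.RT.Main
import Pool.Agent.TH93.LN.Defs

/-!
# Common translates of independent random oracles: the linear level
-/

set_option autoImplicit false

namespace Pool.Agent.TH733.RG

open MeasureTheory Filter Pool.Agent.NPC Pool.Agent.H620R2.Gauge
open Pool.Agent.TH733.RT (xor2 Good' randomSeq coded coded_code ae_translates slow_coded slowG
  slow_e)
open Pool.Agent.TH93.LN

theorem rep_inj : ∀ (a b : ℕ) (u v : List Bool),
    List.replicate a true ++ false :: u = List.replicate b true ++ false :: v → a = b ∧ u = v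
  | 0, 0, u, v, h => by simpa using h
  | 0, b + 1, u, v, h => by simp [List.replicate_succ] at h
  | a + 1, 0, u, v, h => by simp [List.replicate_succ] at h
  | a + 1, b + 1, u, v, h => by
    simp only [List.replicate_succ, List.cons_append, List.cons.injEq, true_and] at h
    obtain ⟨h1, h2⟩ := rep_inj a b u v h
    exact ⟨by omega, h2⟩

/-- the factor of the padding -/
def KL (e : ℕ) : ℕ := e.unpair.2.unpair.2 + 1

/-- the code strings, of linear length -/
def codeL (e : ℕ) (y : List Bool) : List Bool :=
  List.replicate e true ++ false :: (List.replicate (KL e * (y.length + e + 1)) true ++ false :: y)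

theorem length_codeL (e : ℕ) (y : List Bool) :
    (codeL e y).length = e + (KL e * (y.length + e + 1) + (y.length + 1) + 1) := by
  unfold codeL
  rw [List.length_append, List.length_replicate, List.length_cons, List.length_append,
    List.length_replicate, List.length_cons]

/-- what is coded -/
def VL (Ψ : ℕ → Oracle → List Bool → Prop) (e : ℕ) (y : List Bool) (A : Oracle) : Prop :=
  ∃ x : List Bool, y = true :: pairBits [] x ∧
    Ψ e.unpair.1 (fun q => decide (q.length ≤ e.unpair.2 * (x.length + 1)) && A q) x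

theorem goodL (Ψ : ℕ → Oracle → List Bool → Prop) : Good' codeL (VL Ψ) := by
  refine ⟨fun e x e' x' h => ?_, fun e x => ?_, fun e x A A' h => ?_⟩
  · unfold codeL at h
    obtain ⟨rfl, h1⟩ := rep_inj _ _ _ _ h
    exact ⟨rfl, (rep_inj _ _ _ _ h1).2⟩
  · rw [length_codeL]
    omega
  · unfold VL
    refine exists_congr fun z => and_congr_right fun hz => ?_
    have hl : e.unpair.2.unpair.2 * (z.length + 1) < (codeL e x).length := by
      rw [length_codeL, hz, List.length_cons, length_pairBits]
      unfold KL
      have h1 : e.unpair.2.unpair.2 * (z.length + 1) ≤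
          (e.unpair.2.unpair.2 + 1) * (2 * ([] : List Bool).length + 1 + z.length + 1 + e + 1) :=
        Nat.mul_le_mul (by omega) (by omega)
      omega
    have h2 : (fun q : List Bool => decide (q.length ≤ e.unpair.2.unpair.2 * (z.length + 1)) &&
        A q) = fun q => decide (q.length ≤ e.unpair.2.unpair.2 * (z.length + 1)) && A' q := by
      funext q
      by_cases hq : q.length ≤ e.unpair.2.unpair.2 * (z.length + 1)
      · rw [h q (lt_of_le_of_lt hq hl)]
      · simp [hq]
    rw [h2]

/-- relative to the translates, each language on the linear level is given by one question -/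
theorem oneQ_coded (Ψ : ℕ → Oracle → List Bool → Prop) {I : Set ℕ} (B : ℕ → Oracle) {j : ℕ}
    (hj : j ∈ I) (L : Set (List Bool)) (hL : Loc0 Ψ (xor2 (coded codeL (VL Ψ) I B) (B j)) L) :
    OneQ (xor2 (coded codeL (VL Ψ) I B) (B j)) L := by
  obtain ⟨e, c, h⟩ := hL
  set D : Oracle := xor2 (coded codeL (VL Ψ) I B) (B j) with hD
  set E : ℕ := Nat.pair (2 ^ j) (Nat.pair e c) with hE
  have hK : KL E = c + 1 := by
    unfold KL
    rw [hE, Nat.unpair_pair]
    dsimp only
    rw [Nat.unpair_pair]
  have key : ∀ x, D (ask (KL E) E [] x) = true ↔ x ∈ L := by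
    intro x
    have h1 := coded_code (goodL Ψ) B hj (Nat.pair e c) (true :: pairBits [] x)
    rw [← hD, ← hE] at h1
    change D (codeL E (true :: pairBits [] x)) = true ↔ _
    rw [h1, h x]
    unfold VL
    rw [Nat.unpair_pair]
    dsimp only
    constructor
    · rintro ⟨z, hz, h2⟩
      have h3 := congrArg unpair (List.cons.inj hz).2
      rw [unpair_pairBits, unpair_pairBits] at h3
      obtain rfl := (Prod.mk.inj h3).2
      exact h2
    · intro h2
      exact ⟨x, rfl, h2⟩
  refine ⟨KL E, E, 0, 0, fun x => ?_⟩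
  have hempty : IsEmpty {w : Fin (2 * (0 * x.length + 0)) → Bool //
      ¬ (D (ask (KL E) E (List.ofFn w) x) = true ↔ x ∈ L)} := by
    refine ⟨fun w => w.2 ?_⟩
    have hw : List.ofFn w.1 = [] := by
      apply List.eq_nil_of_length_eq_zero
      rw [List.length_ofFn]
      omega
    rw [hw]
    exact key x
  rw [Nat.card_of_isEmpty]
  positivity

theorem lcond_slow : LCond slowG := by
  intro ε hε
  refine Eventually.frequently ?_
  have h1 := (isLittleO_log_rpow_atTop (r := ε) hε).bound (c := Real.log 2)
    (Real.log_pos (by norm_num : (1 : ℝ) < 2))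
  filter_upwards [slow_e (ε := 1) one_pos, tendsto_natCast_atTop_atTop.eventually h1,
    eventually_ge_atTop 1] with N h2 h3 h4
  have h5 : (1 : ℝ) ≤ (N : ℝ) := by exact_mod_cast h4
  refine h2.trans ?_
  rw [Real.rpow_one, ← Real.log_div_log, div_le_iff₀ (Real.log_pos (by norm_num))]
  rw [Real.norm_of_nonneg (Real.log_nonneg h5),
    Real.norm_of_nonneg (Real.rpow_nonneg (by linarith) _)] at h3
  linarith

/-- **Every pattern on the linear level.** -/
theorem use_lin (Ψ : ℕ → Oracle → List Bool → Prop) {S : Set Oracle} (hS : Null slowG S) :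
    (∀ B : ℕ → Oracle, ∃ A : Oracle, ∀ i L, Loc0 Ψ (xor2 A (B i)) L → OneQ (xor2 A (B i)) L) ∧
    ∀ᵐ B ∂randomSeq, ∀ I : Set ℕ, ∃ A : Oracle,
      (∀ i ∈ I, ∀ L, Loc0 Ψ (xor2 A (B i)) L → OneQ (xor2 A (B i)) L) ∧
      ∀ i ∉ I, xor2 A (B i) ∉ S := by
  refine ⟨fun B => ⟨coded codeL (VL Ψ) Set.univ B,
    fun i L hL => oneQ_coded Ψ B (Set.mem_univ i) L hL⟩, ?_⟩
  filter_upwards [ae_translates (slow_coded (goodL Ψ)) hS] with B hB I
  exact ⟨coded codeL (VL Ψ) I B, fun i hi L hL => oneQ_coded Ψ B hi L hL,
    fun i hi => hB I i hi⟩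

end Pool.Agent.TH733.RG
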