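import Pool.Agent.TH733.RG.Code
import Pool.Agent.TH733.RT.Space

/-!
# Polynomial space and exponential space relative to the translates of one oracle, slow version
-/

set_option autoImplicit false

namespace Pool.Agent.TH733.RG

open Pool.Agent.NPC Pool.Agent.H620R2.Gauge Pool.Agent.H622R2.Exp CC
open Pool.Agent.TH733.RT (xor2 Good')

/-- **Polynomial space.** There is one oracle for each `I` and each sequence `B` such that,
relative to all its translates by `B j`, `j ∈ I`, each language in `PSPACE` is read off from the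
oracle by one question, which consists of constants and of the input. -/
theorem exists_pspace {h : ℕ → ℕ} (hh : Lazy h) :
    ∃ (R : ℕ → Polynomial ℕ) (V : ℕ → List Bool → Oracle → Prop),
    Good' (code R) V ∧
    ∀ (I : Set ℕ) (B : ℕ → Oracle), ∀ j ∈ I, ∀ L,
      IsPSPACE (xor2 (coded h (code R) V I B) (B j)) L →
      ∃ e, ∀ x, x ∈ L ↔ xor2 (coded h (code R) V I B) (B j) (code R e x) = true := by
  obtain ⟨g, hg⟩ := exists_enum
  choose b hb using fun e : ℕ => act_length (g e).1 (g e).2
  set R : ℕ → Polynomial ℕ := fun e => b e.unpair.2 with hR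
  set V : ℕ → List Bool → Oracle → Prop := fun e x A =>
    Acc (g e).1 (cut ((b e).eval x.length) A) x with hV
  have hgood : Good' (code R) V := by
    refine ⟨fun e x e' x' h => code_inj R h, fun e x => ?_, fun e x A A' h => ?_⟩
    · unfold code
      simp only [List.length_append, List.length_replicate, List.length_cons]
      omega
    · have hcut : cut ((b e.unpair.2).eval x.length) A =
          cut ((b e.unpair.2).eval x.length) A' := by
        funext z
        unfold cut
        split_ifs with hz
        · apply h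
          have h1 := lt_length_code R e x
          exact lt_of_le_of_lt hz h1
        · rfl
      simp only [hV, hcut]
  refine ⟨R, V, hgood, fun I B j hj L ⟨M, p, hM⟩ => ?_⟩
  obtain ⟨e, he⟩ := hg (M, p)
  refine ⟨Nat.pair (hh.inv j) e, fun x => ?_⟩
  rw [coded_code hh hgood B hj e x]
  set D : Oracle := xor2 (coded h (code R) V I B) (B j) with hD
  change x ∈ L ↔ Acc (g e).1 (cut ((b e).eval x.length) D) x
  have hbe := hb e
  rw [he] at hbe ⊢
  obtain ⟨hM1, s, z, hs, hz, hL⟩ := hM x
  have hcong : ∀ s, M.Reach (cut ((b e).eval x.length) D) x s ↔ M.Reach D x s := by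
    refine reach_congr (fun s => s.length ≤ p.eval x.length) hM1 ?_
    intro s q h1 h2
    have h3 := hbe x s h1
    rw [h2, List.length_cons] at h3
    unfold cut
    rw [if_pos (by omega)]
  constructor
  · intro hx
    refine ⟨s, (hcong s).2 hs, ?_⟩
    rw [hz, hL.1 hx]
  · rintro ⟨t, ht, ht2⟩
    have hst := reach_unique hs ((hcong t).1 ht) ⟨_, hz⟩ ⟨_, ht2⟩
    rw [hst, ht2] at hz
    simp only [List.cons.injEq, true_and] at hz
    exact hL.2 hz.symm

/-- **Exponential space.** The same for exponential space. -/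
theorem exists_expspace {h : ℕ → ℕ} (hh : Lazy h) {E : Set (Polynomial ℕ)} (hE : Good E) :
    ∃ (r : ℕ → Polynomial ℕ) (V : ℕ → List Bool → Oracle → Prop),
    (∀ e, r e ∈ E) ∧ Good' (fun e => codeE (r e) e) V ∧
    ∀ (I : Set ℕ) (B : ℕ → Oracle), ∀ j ∈ I, ∀ L,
      InSpace E (xor2 (coded h (fun e => codeE (r e) e) V I B) (B j)) L →
      ∃ e, ∀ x, x ∈ L ↔
        xor2 (coded h (fun e => codeE (r e) e) V I B) (B j) (codeE (r e) e x) = true := by
  obtain ⟨N, hN⟩ := C2.exists_enumE E hE
  choose b hb using fun e : ℕ => C2.act_len (N e).1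
  choose r' hr' hr2 using fun e : ℕ => hE.comp (N e).2.1 (N e).2.2 (b e)
  set r : ℕ → Polynomial ℕ := fun e => r' e.unpair.2 with hr
  set V : ℕ → List Bool → Oracle → Prop := fun e x A =>
    Acc (N e).1 (cut (2 ^ (r' e).eval x.length) A) x with hV
  have hgood : Good' (fun e => codeE (r e) e) V := by
    refine ⟨fun e x e' x' h => C2.codeE_inj r h, fun e x => ?_, fun e x A A' h => ?_⟩
    · unfold codeE
      simp only [List.length_append, List.length_replicate, List.length_cons]
      generalize 2 ^ (r e).eval x.length = t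
      omega
    · have hcut : cut (2 ^ (r' e.unpair.2).eval x.length) A =
          cut (2 ^ (r' e.unpair.2).eval x.length) A' := by
        funext z
        unfold cut
        split_ifs with hz
        · apply h
          have h1 := C2.lt_length_codeE (r e) e x
          exact lt_of_le_of_lt hz h1
        · rfl
      simp only [hV, hcut]
  refine ⟨r, V, fun e => hr' _, hgood, fun I B j hj L ⟨M, q, hq, hM⟩ => ?_⟩
  obtain ⟨e, he⟩ := hN (M, ⟨q, hq⟩)
  refine ⟨Nat.pair (hh.inv j) e, fun x => ?_⟩
  have hcc := coded_code hh hgood B hj e x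
  refine Iff.trans ?_ hcc.symm
  set D : Oracle := xor2 (coded h (fun e => codeE (r e) e) V I B) (B j) with hD
  change x ∈ L ↔ Acc (N e).1 (cut (2 ^ (r' e).eval x.length) D) x
  have hbe := hb e
  have hr2e := hr2 e
  rw [he] at hbe hr2e ⊢
  obtain ⟨hM1, s, z, hs, hz, hL⟩ := hM x
  have hcong : ∀ s, M.Reach (cut (2 ^ (r' e).eval x.length) D) x s ↔ M.Reach D x s := by
    refine reach_congr (fun s => s.length ≤ 2 ^ q.eval x.length) hM1 ?_
    intro s q' h1 h2
    have h3 := hbe x s
    rw [h2, List.length_cons] at h3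
    have h4 : (b e).eval (x.length + s.length) ≤ (b e).eval (x.length + 2 ^ q.eval x.length) :=
      eval_mono _ (by omega)
    have h5 := hr2e x.length
    unfold cut
    rw [if_pos]
    have h7 : (b e).eval (x.length + 2 ^ q.eval x.length) ≤ 2 ^ (r' e).eval x.length := h5
    omega
  constructor
  · intro hxL
    refine ⟨s, (hcong s).2 hs, ?_⟩
    rw [hz, hL.1 hxL]
  · rintro ⟨t, ht, ht2⟩
    have hst := reach_unique hs ((hcong t).1 ht) ⟨_, hz⟩ ⟨_, ht2⟩
    rw [hst, ht2] at hz
    simp only [List.cons.injEq, true_and] at hz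
    exact hL.2 hz.symm

end Pool.Agent.TH733.RG
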