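import Pool.Agent.TH733.RG.Lazy
import Pool.Agent.TH733.RG.Space
import Pool.Agent.TH733.RT.Use
import Pool.Agent.TH733.RT.UseE

/-!
# Common translates of independent random oracles and null sets for any gauge tending to infinity
-/

set_option autoImplicit false

namespace Pool.Agent.TH733.RG

open MeasureTheory Filter Pool.Agent.NPC Pool.Agent.H620R2.Gauge Pool.Agent.H622R2.Exp
open Pool.Agent.TH733.RT (xor2 Good' randomSeq reduces_code)

/-- **Every pattern, polynomial time.** `S` is a null set for some gauge that tends to infinity. -/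
theorem use_p {f : ℕ → ℝ} (hf : Tendsto f atTop atTop) {S : Set Oracle} (hS : Null f S) :
    ∀ᵐ B ∂randomSeq, ∀ I : Set ℕ, ∃ A : Oracle,
      (∀ i ∈ I, ∀ L, IsPSPACE (xor2 A (B i)) L → Reduces L {x | xor2 A (B i) x = true}) ∧
      ∀ i ∉ I, xor2 A (B i) ∉ S := by
  obtain ⟨h, hh, h1⟩ := exists_lazy hf
  obtain ⟨R, V, hg, h2⟩ := exists_pspace hh
  filter_upwards [ae_translates (slow_coded hh hg) (null_eventually h1 hS)] with B hB I
  refine ⟨coded h (code R) V I B, fun i hi L hL => ?_, fun i hi => hB I i hi⟩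
  obtain ⟨e, he⟩ := h2 I B i hi L hL
  exact reduces_code he

/-- **Every pattern, exponential time.** -/
theorem use_e {E : Set (Polynomial ℕ)} (hE : Good E) {f : ℕ → ℝ} (hf : Tendsto f atTop atTop)
    {S : Set Oracle} (hS : Null f S) :
    ∀ᵐ B ∂randomSeq, ∀ I : Set ℕ, ∃ A : Oracle,
      (∀ i ∈ I, ∀ L, InSpace E (xor2 A (B i)) L → InTime E (xor2 A (B i)) L) ∧
      ∀ i ∉ I, xor2 A (B i) ∉ S := by
  obtain ⟨h, hh, h1⟩ := exists_lazy hf
  obtain ⟨r, V, hr, hg, h2⟩ := exists_expspace hh hE
  filter_upwards [ae_translates (slow_coded hh hg) (null_eventually h1 hS)] with B hB I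
  refine ⟨coded h (fun e => codeE (r e) e) V I B, fun i hi L hL => ?_, fun i hi => hB I i hi⟩
  obtain ⟨e, he⟩ := h2 I B i hi L hL
  have h3 : L = {x | xor2 (coded h (fun e => codeE (r e) e) V I B) (B i)
      (codeE (r e) e x) = true} := by
    ext x
    exact he x
  rw [h3]
  exact inTime_code hE _ (hr e) e

end Pool.Agent.TH733.RG
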