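import Pool.Agent.TH733.RG.Code
import Pool.Agent.TH733.RT.Meas

/-!
# Independent random oracles and all their common translates at once, arbitrary slow gauges
-/

set_option autoImplicit false

namespace Pool.Agent.TH733.RG

open MeasureTheory ProbabilityTheory Filter Pool.Agent.NPC Pool.Agent.H620R2.Gauge
open Pool.Agent.H628R3.RO (randomOracle)
open Pool.Agent.H943R5.GC
open Pool.Agent.W900.CH (length_str_le_log finite_short)
open Pool.Agent.TH733.RT (xor2 Good' randomSeq bits_xor extends_iff_bits meas_bits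
  measurable_bits)

/-- The oracle `Φ I B` on the strings of length at most `n` depends only on `I` up to `h n` and on
the oracles `B j`, `j ≤ h n`, `j ∈ I`, on the strings of length at most `n`. -/
def Slow (h : ℕ → ℕ) (Φ : Set ℕ → (ℕ → Oracle) → Oracle) : Prop :=
  ∀ (I I' : Set ℕ) (B B' : ℕ → Oracle) (n : ℕ), (∀ j ≤ h n, (j ∈ I ↔ j ∈ I')) →
    (∀ j ≤ h n, j ∈ I → ∀ z : List Bool, z.length ≤ n → B j z = B' j z) →
    ∀ y : List Bool, y.length ≤ n → Φ I B y = Φ I' B' y

theorem slow_coded {h : ℕ → ℕ} (hh : Lazy h) {c : ℕ → List Bool → List Bool}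
    {V : ℕ → List Bool → Oracle → Prop} (hV : Good' c V) : Slow h (coded h c V) :=
  fun _ _ _ _ _ hI hB => coded_congr hh hV hI hB

theorem extend_congr {h : ℕ → ℕ} {Φ : Set ℕ → (ℕ → Oracle) → Oracle} (hΦ : Slow h Φ) (J : Finset ℕ)
    (B : ℕ → Oracle) : Φ J (RT.extend J fun j => B j) = Φ J B := by
  funext y
  refine hΦ J J _ B y.length (fun _ _ => Iff.rfl) (fun j _ hj z _ => ?_) y le_rfl
  unfold RT.extend
  rw [dif_pos (Finset.mem_coe.1 hj)]

theorem measurable_fin {h : ℕ → ℕ} {Φ : Set ℕ → (ℕ → Oracle) → Oracle} (hΦ : Slow h Φ) (J : Finset ℕ) (n : ℕ)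
    (t : Fin n → Bool) :
    MeasurableSet {b : (j : J) → Oracle | RT.bits n (Φ J (RT.extend J b)) = t} := by
  set m := Nat.log 2 n with hm
  have hfin : Finite {z : List Bool | z.length ≤ m} := (finite_short m).to_subtype
  set r : ((j : J) → Oracle) → (J × {z : List Bool | z.length ≤ m} → Bool) :=
    fun b p => b p.1 p.2.1 with hr
  have hrm : Measurable r := by
    refine measurable_pi_lambda _ fun p => ?_
    exact (measurable_pi_apply p.2.1).comp (measurable_pi_apply p.1)
  have hsat : {b : (j : J) → Oracle | RT.bits n (Φ J (RT.extend J b)) = t} =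
      r ⁻¹' (r '' {b : (j : J) → Oracle | RT.bits n (Φ J (RT.extend J b)) = t}) := by
    refine subset_antisymm (Set.subset_preimage_image _ _) ?_
    rintro b ⟨b', hb', hbb⟩
    rw [Set.mem_ofPred_eq] at hb' ⊢
    rw [← hb']
    funext k
    unfold RT.bits
    refine hΦ J J _ _ m (fun _ _ => Iff.rfl) (fun j _ hj z hz => ?_) _ (length_str_le_log k.isLt)
    unfold RT.extend
    rw [dif_pos (Finset.mem_coe.1 hj), dif_pos (Finset.mem_coe.1 hj)]
    exact (congrFun hbb (⟨j, Finset.mem_coe.1 hj⟩, ⟨z, hz⟩)).symm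
  rw [hsat]
  exact hrm (MeasurableSet.of_discrete)

/-- The translate of `Φ J B` by an oracle which is not in `J` is a random oracle. -/
theorem meas_translate {h : ℕ → ℕ} {Φ : Set ℕ → (ℕ → Oracle) → Oracle} (hΦ : Slow h Φ) (J : Finset ℕ) {i : ℕ}
    (hi : i ∉ J) (σ : List Bool) :
    randomSeq {B | Extends (xor2 (Φ J B) (B i)) σ} ≤ (2⁻¹ : ENNReal) ^ σ.length := by
  set n := σ.length with hn
  set s : Fin n → Bool := fun k => σ[k] with hs
  set G : (ℕ → Oracle) → (Fin n → Bool) := fun B => RT.bits n (Φ J B) with hG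
  have hind : iIndepFun (fun (i : ℕ) (B : ℕ → Oracle) => B i) randomSeq :=
    iIndepFun_infinitePi (P := fun _ : ℕ => randomOracle) (X := fun _ A => A)
      fun _ => measurable_id
  have h1 := hind.indepFun_finset J {i} (by simpa using hi)
    (fun j => measurable_pi_apply j)
  have hGt : ∀ t : Fin n → Bool, G ⁻¹' {t} = (fun B (j : J) => B j) ⁻¹'
      {b : (j : J) → Oracle | RT.bits n (Φ J (RT.extend J b)) = t} := by
    intro t
    ext B
    simp only [hG, Set.mem_preimage, Set.mem_singleton_iff, Set.mem_ofPred_eq]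
    rw [extend_congr hΦ J B]
  have hGm : ∀ t : Fin n → Bool, MeasurableSet (G ⁻¹' {t}) := by
    intro t
    rw [hGt]
    refine MeasurableSet.preimage (measurable_fin hΦ J n t) ?_
    exact measurable_pi_lambda _ fun j => measurable_pi_apply _
  have hcov : {B | Extends (xor2 (Φ J B) (B i)) σ} ⊆
      ⋃ t ∈ (Finset.univ : Finset (Fin n → Bool)),
        (G ⁻¹' {t} ∩ {B | RT.bits n (B i) = fun k => t k ^^ s k}) := by
    intro B hB
    rw [Set.mem_ofPred_eq, extends_iff_bits, bits_xor] at hB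
    exact Set.mem_iUnion₂.2 ⟨G B, Finset.mem_univ _, rfl, hB⟩
  have hone : ∀ t : Fin n → Bool,
      randomSeq (G ⁻¹' {t} ∩ {B | RT.bits n (B i) = fun k => t k ^^ s k}) =
      randomSeq (G ⁻¹' {t}) * (2⁻¹ : ENNReal) ^ n := by
    intro t
    have h2 : {B : ℕ → Oracle | RT.bits n (B i) = fun k => t k ^^ s k} =
        (fun B (j : ({i} : Finset ℕ)) => B j) ⁻¹'
          {b | RT.bits n (b ⟨i, Finset.mem_singleton_self i⟩) = fun k => t k ^^ s k} := rfl
    have h3 : MeasurableSet {b : (j : ({i} : Finset ℕ)) → Oracle |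
        RT.bits n (b ⟨i, Finset.mem_singleton_self i⟩) = fun k => t k ^^ s k} :=
      (measurable_pi_apply (X := fun _ : ({i} : Finset ℕ) => Oracle)
        (⟨i, Finset.mem_singleton_self i⟩ : ({i} : Finset ℕ))) (measurable_bits n _)
    have h4 : randomSeq {B : ℕ → Oracle | RT.bits n (B i) = fun k => t k ^^ s k} =
        (2⁻¹ : ENNReal) ^ n := by
      have h5 : MeasurePreserving (Function.eval i) randomSeq randomOracle :=
        measurePreserving_eval_infinitePi (fun _ : ℕ => randomOracle) i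
      have h6 := h5.measure_preimage
        (measurable_bits n fun k => t k ^^ s k).nullMeasurableSet
      rw [meas_bits] at h6
      exact h6
    rw [← h4, hGt t, h2]
    exact h1.measure_inter_preimage_eq_mul _ _ (measurable_fin hΦ J n t) h3
  refine (measure_mono hcov).trans ((measure_biUnion_finset_le _ _).trans ?_)
  rw [Finset.sum_congr rfl fun t _ => hone t, ← Finset.sum_mul,
    sum_measure_preimage_singleton _ fun t _ => hGm t]
  calc randomSeq (G ⁻¹' ↑(Finset.univ : Finset (Fin n → Bool))) * (2⁻¹ : ENNReal) ^ n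
      ≤ 1 * (2⁻¹ : ENNReal) ^ n := mul_le_mul' prob_le_one le_rfl
    _ = _ := one_mul _

open Classical in
/-- **All common translates of a sequence of independent random oracles.** Let `S` be a set of
oracles that is null for the gauge `1 + h (log N)`. Almost surely, for all sets `I` and all `i`
outside `I`, the translate of `Φ I B` by `B i` is not in `S`. -/
theorem ae_translates {h : ℕ → ℕ} {Φ : Set ℕ → (ℕ → Oracle) → Oracle} (hΦ : Slow h Φ)
    {S : Set Oracle} (hS : Null (fun N => (h (Nat.log 2 N) : ℝ) + 1) S) :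
    ∀ᵐ B ∂randomSeq, ∀ I : Set ℕ, ∀ i ∉ I, xor2 (Φ I B) (B i) ∉ S := by
  have hmain : ∀ i : ℕ, ∀ᵐ B ∂randomSeq, ∀ I : Set ℕ, i ∉ I → xor2 (Φ I B) (B i) ∉ S := by
    intro i
    rw [ae_iff]
    set E : Set (ℕ → Oracle) := {B | ¬ ∀ I : Set ℕ, i ∉ I → xor2 (Φ I B) (B i) ∉ S} with hE
    have h1 : ∀ δ : ℝ, 0 < δ → randomSeq E ≤ ENNReal.ofReal δ := by
      intro δ hδ
      obtain ⟨T, hT, hs⟩ := hS δ hδ
      have h2 : E ⊆ ⋃ σ : T, ⋃ J ∈ (Finset.range (h (Nat.log 2 σ.1.length) + 1)).powerset.filter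
          (fun J => i ∉ J), {B | Extends (xor2 (Φ J B) (B i)) σ.1} := by
        intro B hB
        rw [hE, Set.mem_ofPred_eq] at hB
        push Not at hB
        obtain ⟨I, hiI, hIS⟩ := hB
        obtain ⟨σ, hσ, hext⟩ := hT _ hIS
        set J : Finset ℕ := (Finset.range (h (Nat.log 2 σ.length) + 1)).filter (fun j => j ∈ I)
          with hJ
        refine Set.mem_iUnion.2 ⟨⟨σ, hσ⟩, Set.mem_iUnion₂.2 ⟨J, ?_, ?_⟩⟩
        · rw [Finset.mem_filter, Finset.mem_powerset]
          exact ⟨Finset.filter_subset _ _, fun h => hiI (Finset.mem_filter.1 h).2⟩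
        · rw [Set.mem_ofPred_eq]
          intro k hk
          have h3 := hext k hk
          rw [← h3]
          unfold xor2
          congr 1
          refine hΦ _ _ _ _ (Nat.log 2 σ.length) (fun j hj => ?_) (fun _ _ _ _ _ => rfl) _
            (length_str_le_log hk)
          rw [hJ, Finset.coe_filter, Set.mem_ofPred_eq, Finset.mem_range]
          exact ⟨fun h => h.2, fun h => ⟨Nat.lt_succ_of_le hj, h⟩⟩
      refine (measure_mono h2).trans ((measure_iUnion_le _).trans (le_trans ?_ hs))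
      refine ENNReal.tsum_le_tsum fun σ => ?_
      refine (measure_biUnion_finset_le _ _).trans ?_
      have h3 : ∀ J ∈ (Finset.range (h (Nat.log 2 σ.1.length) + 1)).powerset.filter
          (fun J => i ∉ J), randomSeq {B | Extends (xor2 (Φ J B) (B i)) σ.1} ≤
          ENNReal.ofReal (2 ^ (-(σ.1.length : ℝ))) := by
        intro J hJ
        rw [N6.half_pow]
        exact meas_translate hΦ J (Finset.mem_filter.1 hJ).2 σ.1
      refine (Finset.sum_le_sum h3).trans ?_
      rw [Finset.sum_const, nsmul_eq_mul, sub_eq_add_neg,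
        Real.rpow_add (by norm_num), ENNReal.ofReal_mul (by positivity)]
      refine mul_le_mul' ?_ le_rfl
      rw [← ENNReal.ofReal_natCast]
      refine ENNReal.ofReal_le_ofReal ?_
      have h4 : ((Finset.range (h (Nat.log 2 σ.1.length) + 1)).powerset.filter
          (fun J => i ∉ J)).card ≤ 2 ^ (h (Nat.log 2 σ.1.length) + 1) := by
        refine (Finset.card_filter_le _ _).trans ?_
        rw [Finset.card_powerset, Finset.card_range]
      have h5 : (2 : ℝ) ^ ((h (Nat.log 2 σ.1.length) : ℝ) + 1) =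
          2 ^ (h (Nat.log 2 σ.1.length) + 1) := by
        rw [← Real.rpow_natCast]
        push_cast
        rfl
      rw [h5]
      exact_mod_cast h4
    by_contra hne
    have h3 : 0 < randomSeq E := pos_iff_ne_zero.2 hne
    obtain ⟨δ, hδ0, hδ⟩ := ENNReal.lt_iff_exists_nnreal_btwn.1 h3
    have h4 : (0 : ℝ) < (δ : ℝ) := by exact_mod_cast hδ0
    have h5 := h1 δ h4
    rw [ENNReal.ofReal_coe_nnreal] at h5
    exact absurd (lt_of_lt_of_le hδ h5) (lt_irrefl _)
  filter_upwards [ae_all_iff.2 hmain] with B hB I i hi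
  exact hB i I hi

/-- For one set `I` at a time, sets of measure zero are avoided. -/
theorem ae_translate_one {h : ℕ → ℕ} {Φ : Set ℕ → (ℕ → Oracle) → Oracle} (hΦ : Slow h Φ)
    {S : Set Oracle} (hS : Null (fun _ => 0) S) (J : Finset ℕ) {i : ℕ} (hi : i ∉ J) :
    ∀ᵐ B ∂randomSeq, xor2 (Φ J B) (B i) ∉ S := by
  rw [ae_iff]
  set E : Set (ℕ → Oracle) := {B | ¬ xor2 (Φ J B) (B i) ∉ S} with hE
  have h1 : ∀ δ : ℝ, 0 < δ → randomSeq E ≤ ENNReal.ofReal δ := by
    intro δ hδ
    obtain ⟨T, hT, hs⟩ := hS δ hδ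
    have h2 : E ⊆ ⋃ σ : T, {B | Extends (xor2 (Φ J B) (B i)) σ.1} := by
      intro B hB
      rw [hE, Set.mem_ofPred_eq, not_not] at hB
      obtain ⟨σ, hσ, hext⟩ := hT _ hB
      exact Set.mem_iUnion.2 ⟨⟨σ, hσ⟩, hext⟩
    refine (measure_mono h2).trans ((measure_iUnion_le _).trans (le_trans ?_ hs))
    refine ENNReal.tsum_le_tsum fun σ => ?_
    rw [zero_sub, N6.half_pow]
    exact meas_translate hΦ J hi σ.1
  by_contra hne
  have h3 : 0 < randomSeq E := pos_iff_ne_zero.2 hne
  obtain ⟨δ, hδ0, hδ⟩ := ENNReal.lt_iff_exists_nnreal_btwn.1 h3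
  have h4 : (0 : ℝ) < (δ : ℝ) := by exact_mod_cast hδ0
  have h5 := h1 δ h4
  rw [ENNReal.ofReal_coe_nnreal] at h5
  exact absurd (lt_of_lt_of_le hδ h5) (lt_irrefl _)

end Pool.Agent.TH733.RG
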