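import Pool.Agent.TH733.RG.BC
import Pool.Agent.H620R2.Gauge2.Null
import Pool.Agent.H673R2.OneOne.Gen
import Pool.Agent.TH687.OneDeg.PSp

/-!
# The complete sets form one 1-degree: the exceptional oracles are a null set for slow gauges
-/

set_option autoImplicit false

namespace Pool.Agent.TH733.RG

open MeasureTheory Filter Pool.Agent.NPC Pool.Agent.H628R3.RO Pool.Agent.H673R2.OneOne
open Pool.Agent.H620R2.Gauge (Null null_iUnion)
open Pool.Agent.TH733.RT (slowG)

/-- the bad events depend only on short strings -/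
theorem bad_local {k q N : ℕ} {κf κd : Cand} {T : List Bool → QA Bool} (H : Hyp k q N κf κd T)
    (hf : ∀ x ∈ spots (2 * k) κf, x.length ≤ N) {A A' : Oracle}
    (h : ∀ x : List Bool, x.length ≤ N → A x = A' x) (hA : A ∈ Bad k κf T) : A' ∈ Bad k κf T := by
  have h1 : ∀ v, (T v).val A' = (T v).val A := fun v =>
    ((T v).loc A A' fun x hx => (h x (H.len v A x hx)).symm).1
  have h2 : rd (2 * k) κf.1 κf.2 A = rd (2 * k) κf.1 κf.2 A' :=
    rd_congr fun x hx => h x (hf x hx)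
  have h3 : ∀ (b : Bool) (s : List Bool), s.length = 2 * k →
      rd (4 * k) b.toNat s A = rd (4 * k) b.toNat s A' := fun b s hs =>
    rd_congr fun x hx => h x ((length_near hs hx).trans H.near)
  have h0 := h3 false
  have h4 := h3 true
  simp only [Bool.toNat_false, Bool.toNat_true] at h0 h4
  have hs : (rd (2 * k) κf.1 κf.2 A').length = 2 * k := length_rd _ _ _ A'
  unfold Bad at hA ⊢
  rw [Set.mem_ofPred_eq] at hA ⊢
  rw [h2, h0 _ hs, ← h1] at hA
  refine ⟨hA.1, fun hcon => hA.2 ?_⟩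
  obtain ⟨⟨s, h5, h6⟩, v, h7, h8, h9⟩ := hcon
  refine ⟨⟨s, h5, ?_⟩, v, h7, ?_, fun s hs => ?_⟩
  · rw [h4 s h5, ← h1]
    exact h6
  · rw [← h1]
    exact h8
  · rw [h0 s hs, h4 s hs]
    exact h9 s hs

theorem col_local {k N : ℕ} {κ : Cand} (hn : 6 * k + 3 ≤ N)
    (hf : ∀ x ∈ spots (2 * k) κ, x.length ≤ N) {A A' : Oracle}
    (h : ∀ x : List Bool, x.length ≤ N → A x = A' x) (hA : A ∈ Col k κ) : A' ∈ Col k κ := by
  have h2 : rd (2 * k) κ.1 κ.2 A = rd (2 * k) κ.1 κ.2 A' :=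
    rd_congr fun x hx => h x (hf x hx)
  have h3 : ∀ (b : Bool) (s : List Bool), s.length = 2 * k →
      rd (4 * k) b.toNat s A = rd (4 * k) b.toNat s A' := fun b s hs =>
    rd_congr fun x hx => h x ((length_near hs hx).trans hn)
  have h0 := h3 false
  have h4 := h3 true
  simp only [Bool.toNat_false, Bool.toNat_true] at h0 h4
  have hs : (rd (2 * k) κ.1 κ.2 A').length = 2 * k := length_rd _ _ _ A'
  obtain ⟨s, h5, h6⟩ := hA
  refine ⟨s, h5, ?_⟩
  rw [← h4 s h5, h6, h2, h0 _ hs]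

theorem spots_le (M : Alg) (z : List Bool) :
    ∀ x ∈ spots (2 * kk z.length) (cc M z.length, z), x.length ≤ NN M z.length := by
  intro x hx
  have h := (length_of_mem_spots hx).2
  simp only at h
  unfold NN
  omega

theorem near_le (M : Alg) (n : ℕ) : 6 * kk n + 3 ≤ NN M n := by
  unfold NN
  omega

theorem BB_local (M : Alg) (n : ℕ) (A A' : Oracle)
    (h : ∀ x : List Bool, x.length ≤ NN M n → A x = A' x) (hA : A ∈ BB M n) : A' ∈ BB M n := by
  unfold BB at hA ⊢
  simp only [Set.mem_iUnion, Set.mem_union] at hA ⊢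
  obtain ⟨z, hz, hA⟩ := hA
  refine ⟨z, hz, ?_⟩
  have hzl := mem_SS.1 hz
  rw [← hzl] at h
  rcases hA with hA | ⟨y, hy, hA⟩ | ⟨z', hz', hA⟩
  · exact Or.inl (col_local (near_le M _) (spots_le M z) h hA)
  · exact Or.inr (Or.inl ⟨y, hy, bad_local (hyp_const M z y) (spots_le M z) h hA⟩)
  · refine Or.inr (Or.inr ⟨z', hz', bad_local (hyp_Yh M z z' ?_ ?_) (spots_le M z) h hA⟩)
    · have := (Finset.mem_erase.1 hz').2
      rw [List.mem_toFinset, mem_strs] at this
      omega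
    · exact (Finset.mem_erase.1 hz').1

/-- a polynomial bound for the length of the strings -/
noncomputable def PN (M : Alg) : Polynomial ℕ :=
  (qb M).comp (18 * Polynomial.X + 17) + 2 + 10 * (4 * Polynomial.X + 4) + Polynomial.X + 10

theorem NN_le (M : Alg) (n : ℕ) : NN M n ≤ (PN M).eval n := by
  unfold NN PN cc kk
  simp only [Polynomial.eval_add, Polynomial.eval_mul, Polynomial.eval_comp, Polynomial.eval_X,
    Polynomial.eval_ofNat]
  exact le_rfl

theorem ev_prob (M : Alg) :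
    ∀ᶠ n : ℕ in atTop, randomOracle (BB M n) ≤ ENNReal.ofReal ((1 / 2) ^ n) := by
  obtain ⟨n0, h0⟩ := qq_poly M
  filter_upwards [eventually_ge_atTop n0] with i hi
  rw [← ofReal_measureReal]
  refine ENNReal.ofReal_le_ofReal ?_
  refine (prob_BB M i).trans ?_
  have h2 : ((6 * qq M i + 4 : ℕ) : ℝ) ≤ 2 ^ i := by exact_mod_cast h0 i hi
  have h4 : (2 : ℝ) ^ i * (1 / 2) ^ i = 1 := by
    rw [← mul_pow]
    norm_num
  calc ((6 * qq M i + 4 : ℕ) : ℝ) * (1 / 2) ^ i * (1 / 2) ^ i ≤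
      2 ^ i * (1 / 2) ^ i * (1 / 2) ^ i := by gcongr
    _ = (1 / 2) ^ i := by rw [h4, one_mul]

/-- the exceptional oracles -/
theorem null_good : Null slowG {A : Oracle | ¬ ∀ M : Alg, Good A M} := by
  have h1 : Null slowG (⋃ M : Alg, {A : Oracle | ∃ᶠ n in atTop, A ∈ BB M n}) :=
    null_iUnion _ fun M => null_of_local (NN_le M) (BB_local M) (ev_prob M)
  refine h1.mono fun A hA => ?_
  by_contra hcon
  refine hA fun M => ?_
  have h2 : ¬ ∃ᶠ n in atTop, A ∈ BB M n := fun h => hcon (Set.mem_iUnion.2 ⟨M, h⟩)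
  rw [not_frequently, eventually_atTop] at h2
  obtain ⟨n0, h0⟩ := h2
  refine ⟨n0, fun z hz => ?_⟩
  have h2 := h0 z.length hz
  unfold BB at h2
  simp only [Set.mem_iUnion, Set.mem_union, not_exists, not_or] at h2
  obtain ⟨h3, h4, h5⟩ := h2 z (mem_SS.2 rfl)
  refine ⟨h3, fun y hy => h4 y ?_, fun z' hz' hne => h5 z' ?_⟩
  · rw [List.mem_toFinset, mem_strs]
    exact hy
  · rw [Finset.mem_erase, List.mem_toFinset, mem_strs]
    exact ⟨hne, hz'⟩

end Pool.Agent.TH733.RG
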