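import Pool.Agent.TH733.RT.Use
import Pool.Agent.TH680.NPP.Chg
import Pool.Agent.H622R2.Exp.M1
import Pool.Agent.H620R2.GaugeR.R2
import Pool.Agent.NPC.Dec
import Pool.Agent.H620R2.Gauge2.CoverN
import Pool.Agent.H620R2.Gauge2.V7

/-!
# P-selective sets relative to an oracle are decided with a sparse oracle (Ko)
-/

set_option autoImplicit false

namespace Pool.Agent.TH733.RG.Sel

open Pool.Agent.NPC Pool.Agent.H620R2.Gauge Pool.Agent.TH680.NPP
open Pool.Agent.W900.IE (SparseS)
open Pool.Agent.H622R2 (poly_of_polyTime poly_pairBits)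
open Pool.Agent.H622R2.Exp.M1 (poly_rep)

/-- The disjoint union of the oracles `Q` and `A`. -/
def join (Q A : Oracle) : Oracle
  | [] => false
  | false :: z => Q z
  | true :: z => A z

/-- The set `S` is P-selective relative to `A`: some `F` in `FP` relative to `A` selects one of any
two strings `x`, `y`, and it is in `S` if `x` or `y` is. -/
def Selective (A S : Oracle) : Prop :=
  ∃ F : List Bool → List Bool, IsFP A F ∧ ∀ x y, (F (pairBits x y) = x ∨ F (pairBits x y) = y) ∧
    (S x = true ∨ S y = true → S (F (pairBits x y)) = true)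

/-! ### tools (from the files TH654/RB) -/

def ones (n : ℕ) : List Bool := List.replicate n true

theorem ones_length (n : ℕ) : (ones n).length = n := List.length_replicate

/-- the index of the last one -/
def lasti (r : List Bool) : ℕ :=
  (((List.range r.length).filter (fun i => r.getD i false)).reverse.head?).getD 0

theorem lasti_eq {r : List Bool} {m : ℕ} (h1 : r.getD m false = true)
    (h2 : ∀ i, m < i → r.getD i false = false) : lasti r = m := by
  have hm : m < r.length := by
    by_contra h
    rw [List.getD_eq_default _ _ (by omega)] at h1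
    exact Bool.false_ne_true h1
  obtain ⟨k, hk⟩ : ∃ k, r.length = m + 1 + k := ⟨r.length - (m + 1), by omega⟩
  unfold lasti
  rw [hk, List.range_add, List.filter_append, List.range_succ, List.filter_append]
  have h3 : (List.map (fun x => m + 1 + x) (List.range k)).filter (fun i => r.getD i false) =
      [] := by
    rw [List.filter_eq_nil_iff]
    intro i hi
    obtain ⟨j, -, rfl⟩ := List.mem_map.1 hi
    rw [h2 _ (by omega)]
    exact Bool.false_ne_true
  rw [h3, List.append_nil, List.filter_cons, if_pos (by rw [h1]), List.filter_nil,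
    List.reverse_append]
  rfl

theorem lasti_le (r : List Bool) : lasti r ≤ r.length := by
  unfold lasti
  cases h : ((List.range r.length).filter (fun i => r.getD i false)).reverse.head? with
  | none => simp
  | some m =>
    have h1 := List.mem_of_mem_head? h
    rw [List.mem_reverse, List.mem_filter, List.mem_range] at h1
    simpa using h1.1.le

theorem poly_lasti : Poly lasti := by
  have h1 : Poly (fun r : List Bool => ((List.range r.length).filter
      (fun i => r.getD i false)).reverse.head?) :=
    Poly.head? (Poly.reverse (Poly.filter (p := fun (r : List Bool) (i : ℕ) => r.getD i false)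
      (UPoly.length Poly.id).range (Poly.getD (Poly.fst Poly.id) (Poly.snd Poly.id)
        (NPC.Poly.const false))))
  exact (Poly.optCases (g := fun _ => 0) (h := fun _ b => b) h1 (NPC.Poly.const _)
    (Poly.snd Poly.id)).congr fun r => by
      unfold lasti
      cases ((List.range r.length).filter (fun i => r.getD i false)).reverse.head? <;> rfl

/-- recovering a list from the bits -/
theorem take_lasti {s : List Bool} {B : ℕ} (hB : s.length < B) {r : List Bool}
    (hr : r = (List.range B).map (fun j => (s ++ [true]).getD j false)) :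
    r.take (lasti r) = s := by
  have hg : ∀ i, r.getD i false = if i < B then (s ++ [true]).getD i false else false := by
    intro i
    by_cases hi : i < B
    · rw [if_pos hi, hr, List.getD_eq_getElem _ _ (by simpa using hi)]
      simp
    · rw [if_neg hi, List.getD_eq_default]
      rw [hr, List.length_map, List.length_range]
      omega
  have h1 : lasti r = s.length := by
    apply lasti_eq
    · rw [hg, if_pos hB]
      simp
    · intro i hi
      rw [hg]
      split_ifs with h
      · rw [List.getD_eq_default]
        rw [List.length_append, List.length_singleton]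
        omega
      · rfl
  rw [h1]
  apply List.ext_getElem
  · rw [List.length_take, hr, List.length_map, List.length_range]
    omega
  · intro i h2 h3
    rw [List.getElem_take]
    have h4 := hg i
    rw [if_pos (by omega), List.getD_eq_getElem _ _ (by
      rw [List.length_take] at h2
      omega), List.getD_eq_getElem _ _ (by rw [List.length_append]; omega),
      List.getElem_append_left h3] at h4
    exact h4

/-- the list of strings written in `w` -/
def dec (w : List Bool) : List (List Bool) := (unbits (List (List Bool)) w).getD []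

theorem dec_bits (l : List (List Bool)) : dec (bits l) = l := by
  unfold dec
  rw [unbits_bits]
  rfl

theorem poly_dec : Poly dec :=
  (Poly.optCases (o := unbits (List (List Bool))) (g := fun _ => ([] : List (List Bool)))
    (h := fun _ b => b) poly_unbits (NPC.Poly.const _) (Poly.snd Poly.id)).congr fun s => by
      unfold dec
      cases unbits (List (List Bool)) s <;> rfl

theorem zip_ans (f : List Bool → Bool) (H : List (List Bool)) (m : ℕ) (h : H.length ≤ m) :
    H.zip ((List.range m).map (fun i => f (H.getD i []))) = H.map (fun y => (y, f y)) := by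
  apply List.ext_getElem
  · simp [h]
  · intro i h1 h2
    have h3 : i < H.length := by simpa using h2
    simp [h3]

theorem filter_zip (f : List Bool → Bool) (H : List (List Bool)) (m : ℕ) (h : H.length ≤ m) :
    ((H.zip ((List.range m).map (fun i => f (H.getD i [])))).filter (fun q => q.2)).map Prod.fst =
      H.filter f := by
  rw [zip_ans f H m h, List.filter_map, List.map_map]
  have h1 : (fun q : List Bool × Bool => q.2) ∘ (fun y => (y, f y)) = f := rfl
  have h2 : (Prod.fst ∘ fun y => (y, f y) : List Bool → List Bool) = id := rfl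
  rw [h1, h2, List.map_id]

theorem isFP_filt {A : Oracle} {g : List Bool → List Bool} (hg : IsFP A g)
    {P : List Bool → List (List Bool)} (hP : Poly P)
    {φ : List Bool × List (List Bool) → List Bool} (hφ : Poly φ) :
    IsFP A (fun x => φ (x, (P x).filter (fun z => decide (g z = [true])))) := by
  obtain ⟨q, hq⟩ := hP.sz_le
  have h1 := IsFP.votes hg (q.comp (Polynomial.C 4 * Polynomial.X + Polynomial.C 1))
    (Q := fun _ => []) (NPC.Poly.const [])
    (W := fun p => (P p.1.2).getD p.1.1 []) (Poly.getD (hP.comp (Poly.snd (Poly.fst Poly.id)))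
      (Poly.fst (Poly.fst Poly.id)) (NPC.Poly.const []))
    (H := fun p => φ (p.1, (((P p.1).zip p.2).filter (fun q => q.2)).map Prod.fst))
    (hφ.comp (Poly.pair (Poly.fst Poly.id) (NPC.Poly.map
      (F := fun (_ : List Bool × List Bool) (q : List Bool × Bool) => q.1)
      (Poly.filter (p := fun (_ : List Bool × List Bool) (q : List Bool × Bool) => q.2)
        (Poly.zip (hP.comp (Poly.fst Poly.id)) (Poly.snd Poly.id)) (Poly.snd (Poly.snd Poly.id)))
      (Poly.fst (Poly.snd Poly.id)))))
  refine (congrArg (IsFP A) (funext fun x => ?_)).mp h1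
  have h2 := length_lt_sz (P x)
  have h3 : (P x).length + 1 ≤
      (q.comp (Polynomial.C 4 * Polynomial.X + Polynomial.C 1)).eval x.length :=
    A2.sz_eval_le (h2.trans_le (hq x))
  have h4 := filter_zip (fun z => decide (g z = [true])) (P x)
    ((q.comp (Polynomial.C 4 * Polynomial.X + Polynomial.C 1)).eval x.length) (by omega)
  exact congrArg (fun r => φ (x, r)) h4

/-! ### few strings dominate -/

theorem exists_few {α : Type} [DecidableEq α] (R : α → α → Prop) [DecidableRel R] {V : Finset α}
    (hR : ∀ a ∈ V, ∀ b ∈ V, R a b ∨ R b a) {k : ℕ} (hV : V.card < 2 ^ (k + 1)) (h0 : V.Nonempty) :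
    ∃ d ∈ V, (V.filter (fun v => ¬ R d v)).card < 2 ^ k := by
  by_contra hcon
  push Not at hcon
  have h1 : V.card * 2 ^ k ≤ ∑ d ∈ V, (V.filter (fun v => ¬ R d v)).card := by
    rw [← smul_eq_mul]
    exact Finset.card_nsmul_le_sum V _ _ hcon
  have h2 : ∑ d ∈ V, (V.filter (fun v => ¬ R d v)).card =
      ((V ×ˢ V).filter (fun p => ¬ R p.1 p.2)).card := by
    rw [Finset.card_filter, Finset.sum_product]
    refine Finset.sum_congr rfl fun d _ => ?_
    rw [Finset.card_filter]
  have h3 : ((V ×ˢ V).filter (fun p => ¬ R p.1 p.2)).card =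
      ((V ×ˢ V).filter (fun p => ¬ R p.2 p.1)).card := by
    refine Finset.card_bij (fun p _ => (p.2, p.1)) ?_ ?_ ?_
    · intro p hp
      rw [Finset.mem_filter, Finset.mem_product] at hp ⊢
      exact ⟨⟨hp.1.2, hp.1.1⟩, hp.2⟩
    · intro p _ q _ h
      simp only [Prod.mk.injEq] at h
      exact Prod.ext h.2 h.1
    · intro p hp
      rw [Finset.mem_filter, Finset.mem_product] at hp
      refine ⟨(p.2, p.1), ?_, rfl⟩
      rw [Finset.mem_filter, Finset.mem_product]
      exact ⟨⟨hp.1.2, hp.1.1⟩, hp.2⟩
  have h4 : ((V ×ˢ V).filter (fun p => ¬ R p.1 p.2)).card +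
      ((V ×ˢ V).filter (fun p => ¬ R p.2 p.1)).card + V.card ≤ (V ×ˢ V).card := by
    have e1 : (V.diag).card = V.card := Finset.diag_card V
    rw [← e1, ← Finset.card_union_of_disjoint, ← Finset.card_union_of_disjoint]
    · refine Finset.card_le_card fun p hp => ?_
      rw [Finset.mem_union, Finset.mem_union, Finset.mem_filter, Finset.mem_filter,
        Finset.mem_diag] at hp
      rw [Finset.mem_product]
      rcases hp with (hp | hp) | hp
      · exact Finset.mem_product.1 hp.1
      · exact Finset.mem_product.1 hp.1
      · exact ⟨hp.1, hp.2 ▸ hp.1⟩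
    · rw [Finset.disjoint_left]
      intro p hp hq
      rw [Finset.mem_diag] at hq
      rw [Finset.mem_union, Finset.mem_filter, Finset.mem_filter] at hp
      have h5 := hR p.1 hq.1 p.1 hq.1
      rw [← hq.2] at hp
      rcases hp with hp | hp
      · exact hp.2 (h5.elim id id)
      · exact hp.2 (h5.elim id id)
    · rw [Finset.disjoint_left]
      intro p hp hq
      rw [Finset.mem_filter, Finset.mem_product] at hp hq
      exact (hR p.1 hp.1.1 p.2 hp.1.2).elim hp.2 hq.2
  rw [Finset.card_product] at h4
  have h6 : 0 < V.card := h0.card_pos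
  have h7 : V.card * (2 ^ k + 2 ^ k + 1) ≤ V.card * V.card := by
    rw [← h3, ← h2] at h4
    nlinarith
  have h8 := Nat.le_of_mul_le_mul_left h7 h6
  rw [pow_succ] at hV
  omega

theorem exists_dom {α : Type} [DecidableEq α] (R : α → α → Prop) [DecidableRel R] :
    ∀ (k : ℕ) (V : Finset α), (∀ a ∈ V, ∀ b ∈ V, R a b ∨ R b a) → V.card < 2 ^ k →
    ∃ D : List α, D.length ≤ k ∧ (∀ d ∈ D, d ∈ V) ∧ ∀ v ∈ V, ∃ d ∈ D, R d v
  | 0, V, _, hV => by
    have h : V = ∅ := Finset.card_eq_zero.1 (by simpa using hV)
    exact ⟨[], le_rfl, by simp, by simp [h]⟩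
  | k + 1, V, hR, hV => by
    by_cases h0 : V.Nonempty
    · obtain ⟨d, hd, h1⟩ := exists_few R hR hV h0
      obtain ⟨D, h2, h3, h4⟩ := exists_dom R k (V.filter (fun v => ¬ R d v))
        (fun a ha b hb => hR a (Finset.mem_filter.1 ha).1 b (Finset.mem_filter.1 hb).1) h1
      refine ⟨d :: D, by simpa using h2, ?_, ?_⟩
      · intro e he
        rcases List.mem_cons.1 he with rfl | he
        · exact hd
        · exact (Finset.mem_filter.1 (h3 e he)).1
      · intro v hv
        by_cases h5 : R d v
        · exact ⟨d, by simp, h5⟩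
        · obtain ⟨e, he, h6⟩ := h4 v (Finset.mem_filter.2 ⟨hv, h5⟩)
          exact ⟨e, List.mem_cons_of_mem _ he, h6⟩
    · rw [Finset.not_nonempty_iff_eq_empty] at h0
      exact ⟨[], by simp, by simp, by simp [h0]⟩

/-- the strings of length `n` in `S` -/
noncomputable def level (S : Oracle) (n : ℕ) : Finset (List Bool) :=
  (Finset.univ.image (fun v : Fin n → Bool => List.ofFn v)).filter (fun x => S x = true)

theorem mem_level {S : Oracle} {n : ℕ} {x : List Bool} :
    x ∈ level S n ↔ x.length = n ∧ S x = true := by
  unfold level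
  rw [Finset.mem_filter, Finset.mem_image]
  constructor
  · rintro ⟨⟨v, -, rfl⟩, h⟩
    exact ⟨List.length_ofFn, h⟩
  · rintro ⟨rfl, h⟩
    exact ⟨⟨fun i => x.get i, Finset.mem_univ _, List.ofFn_get x⟩, h⟩

theorem card_level (S : Oracle) (n : ℕ) : (level S n).card < 2 ^ (n + 1) := by
  unfold level
  refine lt_of_le_of_lt ((Finset.card_filter_le _ _).trans Finset.card_image_le) ?_
  rw [Finset.card_univ, Fintype.card_fun, Fintype.card_bool, Fintype.card_fin]
  exact Nat.pow_lt_pow_right (by omega) (by omega)

/-- few strings of length `n` which decide `S` for all strings of length `n` -/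
theorem exists_list {S : Oracle} {F : List Bool → List Bool}
    (hF : ∀ x y, (F (pairBits x y) = x ∨ F (pairBits x y) = y) ∧
      (S x = true ∨ S y = true → S (F (pairBits x y)) = true)) (n : ℕ) :
    ∃ D : List (List Bool), D.length ≤ n + 1 ∧ (∀ d ∈ D, d.length = n) ∧
      ∀ x : List Bool, x.length = n → (S x = true ↔
        ∃ d ∈ D, F (pairBits d x) = x ∨ F (pairBits x d) = x) := by
  classical
  obtain ⟨D, h1, h2, h3⟩ := exists_dom
    (fun d v : List Bool => F (pairBits d v) = v ∨ F (pairBits v d) = v) (n + 1) (level S n)
    (fun a _ b _ => by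
      rcases (hF a b).1 with h | h
      · exact Or.inr (Or.inr h)
      · exact Or.inl (Or.inl h)) (card_level S n)
  refine ⟨D, h1, fun d hd => (mem_level.1 (h2 d hd)).1, fun x hx => ⟨fun h => ?_, ?_⟩⟩
  · exact h3 x (mem_level.2 ⟨hx, h⟩)
  · rintro ⟨d, hd, h | h⟩
    · have h5 := (hF d x).2 (Or.inl (mem_level.1 (h2 d hd)).2)
      rwa [h] at h5
    · have h5 := (hF x d).2 (Or.inr (mem_level.1 (h2 d hd)).2)
      rwa [h] at h5

/-! ### the sparse oracle -/

/-- the sparse oracle which contains the bits of the lists -/
noncomputable def tabT (D : ℕ → List (List Bool)) : Oracle := fun u =>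
  if u = pairBits (ones (unpair u).1.length) (ones (unpair u).2.length) then
    (bits (D (unpair u).1.length) ++ [true]).getD (unpair u).2.length false else false

theorem tabT_eq (D : ℕ → List (List Bool)) (n j : ℕ) :
    tabT D (pairBits (ones n) (ones j)) = (bits (D n) ++ [true]).getD j false := by
  unfold tabT
  rw [unpair_pairBits]
  simp only [ones_length, if_true]

/-- sparse sets -/
def Sparse (S : Oracle) : Prop :=
  ∃ p : Polynomial ℕ, ∀ n, {x : List Bool | S x = true ∧ x.length ≤ n}.ncard ≤ p.eval n

theorem sparse_tabT (D : ℕ → List (List Bool)) : Sparse (tabT D) := by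
  classical
  refine ⟨(Polynomial.X + 1) * (Polynomial.X + 1), fun n => ?_⟩
  have h : {x : List Bool | tabT D x = true ∧ x.length ≤ n} ⊆
      ((((Finset.range (n + 1)) ×ˢ (Finset.range (n + 1))).image
        (fun p => pairBits (ones p.1) (ones p.2)) : Finset (List Bool)) : Set (List Bool)) := by
    rintro x ⟨h1, h2⟩
    unfold tabT at h1
    split_ifs at h1 with h3
    rw [Finset.mem_coe, Finset.mem_image]
    refine ⟨((unpair x).1.length, (unpair x).2.length), ?_, h3.symm⟩
    have h4 := congrArg List.length h3
    rw [length_pairBits, ones_length, ones_length] at h4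
    rw [Finset.mem_product, Finset.mem_range, Finset.mem_range]
    constructor <;> simp only <;> omega
  refine (Set.ncard_le_ncard h (Finset.finite_toSet _)).trans ?_
  rw [Set.ncard_coe_finset]
  refine Finset.card_image_le.trans ?_
  rw [Finset.card_product, Finset.card_range]
  simp

/-- the questions for the list -/
noncomputable def QT (B : Polynomial ℕ) (x : List Bool) : List (List Bool) :=
  (List.range (B.eval x.length)).map (fun j => true :: pairBits (ones x.length)
    (ones (min j (B.eval x.length))))

theorem poly_QT (B : Polynomial ℕ) : Poly (QT B) := by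
  have hx : UPoly (fun y : List Bool => y.length) := UPoly.length Poly.id
  have hx' : UPoly (fun p : List Bool × ℕ => p.1.length) := UPoly.length (Poly.fst Poly.id)
  unfold QT
  refine NPC.Poly.map (F := fun (y : List Bool) (j : ℕ) => true :: pairBits (ones y.length)
    (ones (min j (B.eval y.length)))) (hx.eval B).range ?_
  exact Poly.cons (NPC.Poly.const true) (poly_pairBits (poly_rep hx' true) (poly_rep (UPoly.of_le
    (Poly.min (Poly.snd Poly.id) (hx'.eval B).toPoly) (hx'.eval B)
    (fun p => min_le_right _ _)) true))

/-- the input and the list -/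
noncomputable def FT (S : Oracle) (B : Polynomial ℕ) (x : List Bool) : List Bool :=
  pairBits x (((QT B x).map S).take (lasti ((QT B x).map S)))

theorem isFP_FT (S : Oracle) (B : Polynomial ℕ) : IsFP S (FT S B) :=
  IsFP.tt (H := fun p => pairBits p.1 (p.2.take (lasti p.2))) (poly_QT B)
    (poly_pairBits (Poly.fst Poly.id)
      (R1.poly_take (Poly.snd Poly.id) (UPoly.of_le (poly_lasti.comp (Poly.snd Poly.id))
        (UPoly.length (Poly.snd Poly.id)) (fun p => lasti_le p.2))))

theorem FT_eq {A : Oracle} {D : ℕ → List (List Bool)} {B : Polynomial ℕ} {x : List Bool}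
    (hB : (bits (D x.length)).length < B.eval x.length) :
    FT (join A (tabT D)) B x = pairBits x (bits (D x.length)) := by
  have h1 : (QT B x).map (join A (tabT D)) = (List.range (B.eval x.length)).map
        (fun j => (bits (D x.length) ++ [true]).getD j false) := by
    unfold QT
    rw [List.map_map]
    apply List.map_congr_left
    intro i hi
    rw [List.mem_range] at hi
    show tabT D (pairBits (ones x.length) (ones (min i (B.eval x.length)))) = _
    rw [min_eq_left hi.le, tabT_eq]
  unfold FT
  rw [take_lasti hB h1]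

/-! ### deciding a P-selective set with the sparse oracle -/

/-- the test of one string `d`: does `F` prefer `x` to `d`? -/
def tst (F : List Bool → List Bool) (w : List Bool) : List Bool :=
  [decide (F w = (unpair w).2 ∨ F (pairBits (unpair w).2 (unpair w).1) = (unpair w).2)]

theorem isFP_tst {A : Oracle} {F : List Bool → List Bool} (hF : IsFP A F) : IsFP A (tst F) := by
  have h1 : IsFP A (fun w => F (pairBits (unpair w).2 (unpair w).1)) :=
    IsFP.comp hF (IsFP.of_poly (poly_pairBits (Poly.snd poly_unpair) (Poly.fst poly_unpair)))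
  have h2 := IsFP.seq hF h1 (φ := fun p => p.1)
    (ψ := fun p => [decide (p.2.1 = (unpair p.1).2) || decide (p.2.2 = (unpair p.1).2)])
    (Poly.fst Poly.id)
    (Poly.cons (Poly.or (Poly.decide_eq (Poly.fst (Poly.snd Poly.id))
      (Poly.snd (poly_unpair.comp (Poly.fst Poly.id))))
      (Poly.decide_eq (Poly.snd (Poly.snd Poly.id))
      (Poly.snd (poly_unpair.comp (Poly.fst Poly.id))))) (NPC.Poly.const []))
  refine (congrArg (IsFP A) (funext fun w => ?_)).mp h2
  unfold tst
  beta_reduce
  rw [Bool.decide_or]

/-- the candidates -/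
def cand (z : List Bool) : List (List Bool) :=
  (dec (unpair z).2).map (fun d => pairBits d (unpair z).1)

theorem poly_cand : Poly cand := by
  unfold cand
  exact NPC.Poly.map (F := fun (z : List Bool) (d : List Bool) => pairBits d (unpair z).1)
    (poly_dec.comp (Poly.snd poly_unpair))
    (poly_pairBits (Poly.snd Poly.id) (Poly.fst (poly_unpair.comp (Poly.fst Poly.id))))

theorem isFP_sel {A : Oracle} {F : List Bool → List Bool} (hF : IsFP A F) :
    IsFP A (fun z => [!((cand z).filter (fun w => decide (tst F w = [true]))).isEmpty]) :=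
  isFP_filt (isFP_tst hF) poly_cand (φ := fun p => [!p.2.isEmpty])
    (Poly.cons (Poly.isEmpty (Poly.snd Poly.id)).not (NPC.Poly.const []))

theorem sel_eq {S : Oracle} {F : List Bool → List Bool} {D : List (List Bool)} {x : List Bool}
    (h : S x = true ↔ ∃ d ∈ D, F (pairBits d x) = x ∨ F (pairBits x d) = x) :
    [!((cand (pairBits x (bits D))).filter (fun w => decide (tst F w = [true]))).isEmpty] =
      [S x] := by
  congr 1
  rw [Bool.eq_iff_iff, h, Bool.not_eq_true', List.isEmpty_eq_false_iff_exists_mem]
  unfold cand tst
  rw [unpair_pairBits, dec_bits]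
  constructor
  · rintro ⟨w, hw⟩
    rw [List.mem_filter, List.mem_map] at hw
    obtain ⟨⟨d, hd, rfl⟩, h1⟩ := hw
    simp only [unpair_pairBits, List.cons.injEq, and_true, decide_eq_true_eq] at h1
    exact ⟨d, hd, h1⟩
  · rintro ⟨d, hd, h1⟩
    refine ⟨pairBits d x, ?_⟩
    rw [List.mem_filter, List.mem_map]
    refine ⟨⟨d, hd, rfl⟩, ?_⟩
    simp only [unpair_pairBits, List.cons.injEq, and_true, decide_eq_true_eq]
    exact h1

/-- the size of the lists -/
theorem bits_lt {D : List (List Bool)} {n : ℕ} (h1 : D.length ≤ n + 1)
    (h2 : ∀ d ∈ D, d.length = n) : (bits D).length <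
      (((Polynomial.X + 1) * (4 * Polynomial.X + 2) + 2 : Polynomial ℕ)).eval n := by
  rw [bits_length]
  have h3 := sz_le_length_mul D (4 * n + 1) (fun y hy => by
    have h4 := sz_listBool_le y
    have h5 := h2 y hy
    omega)
  have h6 : D.length * (4 * n + 1 + 1) ≤ (n + 1) * (4 * n + 2) := Nat.mul_le_mul h1 (by omega)
  have h7 : (((Polynomial.X + 1) * (4 * Polynomial.X + 2) + 2 : Polynomial ℕ)).eval n =
      (n + 1) * (4 * n + 2) + 2 := by
    simp
  omega

/-- a question to the left part -/
theorem isFP_left (A T : Oracle) : IsFP (join A T) (fun q => [A q]) := by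
  have h10 := IsFP.tt (A := join A T) (Q := fun q => [false :: q])
    (H := fun p => [p.2.head?.getD false])
    (Poly.cons (Poly.cons (NPC.Poly.const false) Poly.id) (NPC.Poly.const []))
    (Poly.cons (Poly.head?_getD (Poly.snd Poly.id) false) (NPC.Poly.const []))
  exact h10

/-- **P-selective sets (Ko).** Relative to every oracle `A`, the questions to a P-selective set `S`
can be answered in polynomial time with a sparse oracle. -/
theorem exists_sparse {A S : Oracle} (h : Selective A S) :
    ∃ T : Oracle, Sparse T ∧ IsFP (join A T) (fun q => [join A S q]) := by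
  obtain ⟨F, hF, h1⟩ := h
  choose D h2 h3 h4 using exists_list h1
  refine ⟨tabT D, sparse_tabT D, ?_⟩
  have h5 : IsFP (join A (tabT D)) (fun x => [S x]) := by
    have h6 := IsFP.comp (isFP_sel (A := join A (tabT D))
      (Pool.Agent.TH680.DT.isFP_subst (isFP_left A _) hF))
      (isFP_FT (join A (tabT D)) ((Polynomial.X + 1) * (4 * Polynomial.X + 2) + 2))
    refine (congrArg (IsFP _) (funext fun x => ?_)).mp h6
    beta_reduce
    rw [FT_eq (bits_lt (h2 _) (h3 _)), sel_eq (h4 _ x rfl)]
  have h7 : IsFP (join A (tabT D)) (fun q => [S q.tail]) :=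
    IsFP.comp h5 (IsFP.of_poly (Poly.tail Poly.id))
  have h8 : IsFP (join A (tabT D)) (fun q => [A q.tail]) :=
    IsFP.comp (isFP_left A _) (IsFP.of_poly (Poly.tail Poly.id))
  have h9 := IsFP.seq h7 h8 (φ := fun p => p.1)
    (ψ := fun p => if p.1.head? = some true then p.2.1 else
      if p.1.head? = some false then p.2.2 else [false])
    (Poly.fst Poly.id)
    (Poly.ite (Poly.decide_eq (Poly.head? (Poly.fst Poly.id)) (NPC.Poly.const _))
      (Poly.fst (Poly.snd Poly.id))
      (Poly.ite (Poly.decide_eq (Poly.head? (Poly.fst Poly.id)) (NPC.Poly.const _))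
        (Poly.snd (Poly.snd Poly.id)) (NPC.Poly.const _)))
  refine (congrArg (IsFP _) (funext fun q => ?_)).mp h9
  rcases q with _ | ⟨b, z⟩
  · simp [join]
  · cases b <;> simp [join]

end Pool.Agent.TH733.RG.Sel
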