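import Pool.Agent.TH733.RG.Main
import Mathlib.MeasureTheory.Measure.Regular

/-!
# Sets of measure zero are null sets for some gauge that tends to infinity
-/

set_option autoImplicit false

namespace Pool.Agent.TH733.RG

open MeasureTheory Filter Pool.Agent.NPC Pool.Agent.H620R2.Gauge
open Pool.Agent.H628R3.RO (randomOracle)
open Pool.Agent.TH733.RT (meas_bits measurable_bits extends_iff_bits)

/-- sets of measure zero have covers by cylinders of small total measure -/
theorem exists_cover {S : Set Oracle} (hS : randomOracle S = 0) {ε : ENNReal} (hε : 0 < ε) :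
    ∃ T : Set (List Bool), (∀ A ∈ S, ∃ σ ∈ T, Extends A σ) ∧
      ∑' σ : T, (2⁻¹ : ENNReal) ^ σ.1.length ≤ ε := by
  classical
  obtain ⟨U, hU, hUo, hUm⟩ := S.exists_isOpen_lt_of_lt ε (μ := randomOracle) (by rwa [hS])
  -- the minimal cylinders in `U`
  set In : List Bool → Prop := fun σ => ∀ A : Oracle, Extends A σ → A ∈ U with hIn
  refine ⟨{σ | In σ ∧ ∀ k < σ.length, ¬ In (σ.take k)}, fun A hA => ?_, ?_⟩
  · have hAU := hU hA
    obtain ⟨J, u, h1, h2⟩ := isOpen_pi_iff.1 hUo A hAU
    have hex : ∃ n : ℕ, In (List.ofFn (RT.bits n A)) := by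
      refine ⟨J.sup idx + 1, fun A' hA' => h2 ?_⟩
      intro x hx
      have h3 : idx x < J.sup idx + 1 := Nat.lt_succ_of_le (Finset.le_sup (f := idx) hx)
      have h4 := hA' (idx x) (by rw [List.length_ofFn]; exact h3)
      rw [str_idx] at h4
      simp only [List.getElem_ofFn, RT.bits, str_idx] at h4
      rw [h4]
      exact (h1 x hx).2
    refine ⟨List.ofFn (RT.bits (Nat.find hex) A), ⟨Nat.find_spec hex, fun k hk hcon => ?_⟩, ?_⟩
    · rw [List.length_ofFn] at hk
      refine Nat.find_min hex hk ?_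
      have h5 : (List.ofFn (RT.bits (Nat.find hex) A)).take k = List.ofFn (RT.bits k A) := by
        apply List.ext_getElem
        · simp [hk.le]
        · intro i h6 h7
          simp [RT.bits]
      rwa [← h5]
    · intro i hi
      simp [RT.bits]
  · have h1 : ∀ σ : {σ : List Bool | In σ ∧ ∀ k < σ.length, ¬ In (σ.take k)},
        (2⁻¹ : ENNReal) ^ σ.1.length = randomOracle {A : Oracle | Extends A σ.1} := by
      intro σ
      rw [← meas_bits σ.1.length (fun k => σ.1[k])]
      congr 1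
      ext A
      exact (extends_iff_bits A σ.1).symm
    rw [tsum_congr h1, ← measure_iUnion]
    · refine (measure_mono ?_).trans hUm.le
      intro A hA
      obtain ⟨σ, hσ⟩ := Set.mem_iUnion.1 hA
      exact σ.2.1 A hσ
    · intro σ τ hne
      refine Set.disjoint_left.2 fun A h2 h3 => ?_
      rw [Set.mem_ofPred_eq] at h2 h3
      -- two sequences extended by the same oracle
      have key : ∀ σ τ : {σ : List Bool | In σ ∧ ∀ k < σ.length, ¬ In (σ.take k)},
          Extends A σ.1 → Extends A τ.1 → σ.1.length ≤ τ.1.length → σ = τ := by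
        intro σ τ h2 h3 hle
        have h4 : σ.1 = τ.1.take σ.1.length := by
          apply List.ext_getElem
          · simp [hle]
          · intro i h5 h6
            rw [List.getElem_take, ← h2 i h5, ← h3 i (by omega)]
        rcases Nat.lt_or_ge σ.1.length τ.1.length with h5 | h5
        · exact absurd (h4 ▸ σ.2.1) (τ.2.2 _ h5)
        · apply Subtype.ext
          rw [h4, List.take_of_length_le h5]
      rcases le_total σ.1.length τ.1.length with h4 | h4
      · exact hne (key σ τ h2 h3 h4)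
      · exact hne (key τ σ h3 h2 h4).symm
    · intro σ
      have h2 : {A : Oracle | Extends A σ.1} =
          {A : Oracle | RT.bits σ.1.length A = fun k => σ.1[k]} := by
        ext A
        exact extends_iff_bits A σ.1
      rw [h2]
      exact measurable_bits _ _

theorem tail_eq (w : ℕ → ENNReal) (L : ℕ) :
    ∑' n, (if L ≤ n then w n else 0) = ∑' n, w (n + L) := by
  rw [← Summable.sum_add_tsum_nat_add' (f := fun n => if L ≤ n then w n else 0) (k := L)
    ENNReal.summable]
  have h1 : ∑ i ∈ Finset.range L, (if L ≤ i then w i else 0) = 0 := by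
    refine Finset.sum_eq_zero fun i hi => if_neg ?_
    have := Finset.mem_range.1 hi
    omega
  rw [h1, zero_add]
  exact tsum_congr fun i => if_pos (Nat.le_add_left _ _)

theorem exists_weight (w : ℕ → ℕ → ENNReal)
    (hw : ∀ k, ∑' n, w k n ≤ (2⁻¹ : ENNReal) ^ (3 * k)) :
    ∃ g : ℕ → ℝ, (∀ n, 1 ≤ g n) ∧ Tendsto g atTop atTop ∧
      ∀ k, ∑' n, ENNReal.ofReal (g n) * w k n ≤ 3 * (2⁻¹ : ENNReal) ^ k := by
  classical
  have ha1 : (2⁻¹ : ENNReal) ≤ 1 := ENNReal.inv_le_one.2 (by norm_num)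
  have h2a : (2 : ENNReal) * 2⁻¹ = 1 := ENNReal.mul_inv_cancel (by norm_num) (by norm_num)
  have hpos : ∀ j : ℕ, (0 : ENNReal) < (2⁻¹ : ENNReal) ^ j := fun j =>
    ENNReal.pow_pos (by simp) j
  -- the scales
  have hL : ∀ j : ℕ, ∃ L : ℕ, j ≤ L ∧ ∀ k ≤ j,
      ∑' n, (if L ≤ n then w k n else 0) ≤ (2⁻¹ : ENNReal) ^ (3 * j) := by
    intro j
    have h1 : ∀ k : ℕ, ∀ᶠ L in atTop, ∑' n, w k (n + L) ≤ (2⁻¹ : ENNReal) ^ (3 * j) := by
      intro k
      have hne : ∑' n, w k n ≠ ⊤ :=
        ne_top_of_le_ne_top (ENNReal.pow_ne_top (by simp)) (hw k)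
      exact ((ENNReal.tendsto_sum_nat_add (w k) hne).eventually (gt_mem_nhds (hpos _))).mono
        fun _ h => h.le
    have h2 : ∀ᶠ L in atTop, ∀ k ∈ Finset.range (j + 1),
        ∑' n, w k (n + L) ≤ (2⁻¹ : ENNReal) ^ (3 * j) :=
      (Filter.eventually_all_finset _).2 fun k _ => h1 k
    obtain ⟨L, hL1, hL2⟩ := (h2.and (eventually_ge_atTop j)).exists
    refine ⟨L, hL2, fun k hk => ?_⟩
    rw [tail_eq]
    exact hL1 k (Finset.mem_range.2 (Nat.lt_succ_of_le hk))
  choose L hjL hL using hL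
  set g : ℕ → ℝ := fun n => 1 + ∑ j ∈ Finset.range (n + 1), if L j ≤ n then (2 : ℝ) ^ j else 0
    with hg
  have hg0 : ∀ n, 0 ≤ ∑ j ∈ Finset.range (n + 1), (if L j ≤ n then (2 : ℝ) ^ j else 0) :=
    fun n => Finset.sum_nonneg fun j _ => by split_ifs <;> positivity
  refine ⟨g, fun n => ?_, ?_, fun k => ?_⟩
  · have := hg0 n
    rw [hg]
    dsimp only
    linarith
  · rw [tendsto_atTop]
    intro C
    obtain ⟨j, hj⟩ := pow_unbounded_of_one_lt C (by norm_num : (1 : ℝ) < 2)
    filter_upwards [eventually_ge_atTop (L j)] with n hn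
    have h1 : (if L j ≤ n then (2 : ℝ) ^ j else 0) ≤
        ∑ j ∈ Finset.range (n + 1), (if L j ≤ n then (2 : ℝ) ^ j else 0) :=
      Finset.single_le_sum (f := fun j => if L j ≤ n then (2 : ℝ) ^ j else 0)
        (fun i _ => by split_ifs <;> positivity)
        (Finset.mem_range.2 (Nat.lt_succ_of_le ((hjL j).trans hn)))
    rw [if_pos hn] at h1
    rw [hg]
    dsimp only
    linarith
  · have hgn : ∀ n, ENNReal.ofReal (g n) ≤ 1 + ∑' j, (if L j ≤ n then (2 : ENNReal) ^ j else 0) := by
      intro n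
      rw [hg]
      dsimp only
      rw [ENNReal.ofReal_add zero_le_one (hg0 n), ENNReal.ofReal_one,
        ENNReal.ofReal_sum_of_nonneg fun j _ => by split_ifs <;> positivity]
      refine add_le_add le_rfl (le_trans (le_of_eq ?_) (ENNReal.sum_le_tsum (Finset.range (n + 1))))
      refine Finset.sum_congr rfl fun j _ => ?_
      split_ifs
      · rw [ENNReal.ofReal_pow (by norm_num)]
        simp
      · simp
    have htail : ∀ j, ∑' n, (if L j ≤ n then w k n else 0) ≤
        (2⁻¹ : ENNReal) ^ (2 * j) * (2⁻¹ : ENNReal) ^ k := by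
      intro j
      rw [← pow_add]
      rcases le_or_gt k j with h | h
      · exact (hL j k h).trans (pow_le_pow_right_of_le_one' ha1 (by omega))
      · refine le_trans (ENNReal.tsum_le_tsum fun n => ?_)
          ((hw k).trans (pow_le_pow_right_of_le_one' ha1 (by omega)))
        split_ifs
        · exact le_rfl
        · exact zero_le
    calc ∑' n, ENNReal.ofReal (g n) * w k n
        ≤ ∑' n, (1 + ∑' j, (if L j ≤ n then (2 : ENNReal) ^ j else 0)) * w k n :=
          ENNReal.tsum_le_tsum fun n => mul_le_mul' (hgn n) le_rfl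
      _ = ∑' n, w k n + ∑' n, ∑' j, (if L j ≤ n then (2 : ENNReal) ^ j else 0) * w k n := by
          rw [← ENNReal.tsum_add]
          refine tsum_congr fun n => ?_
          rw [add_mul, one_mul, ENNReal.tsum_mul_right]
      _ = ∑' n, w k n + ∑' j, (2 : ENNReal) ^ j * ∑' n, (if L j ≤ n then w k n else 0) := by
          rw [ENNReal.tsum_comm]
          congr 1
          refine tsum_congr fun j => ?_
          rw [← ENNReal.tsum_mul_left]
          refine tsum_congr fun n => ?_
          split_ifs <;> simp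
      _ ≤ (2⁻¹ : ENNReal) ^ (3 * k) + ∑' j, (2⁻¹ : ENNReal) ^ k * (2⁻¹ : ENNReal) ^ j := by
          refine add_le_add (hw k) (ENNReal.tsum_le_tsum fun j => ?_)
          refine (mul_le_mul' le_rfl (htail j)).trans (le_of_eq ?_)
          have h3 : (2 : ENNReal) ^ j * (2⁻¹ : ENNReal) ^ j = 1 := by
            rw [← mul_pow, h2a, one_pow]
          calc (2 : ENNReal) ^ j * ((2⁻¹ : ENNReal) ^ (2 * j) * (2⁻¹ : ENNReal) ^ k)
              = ((2 : ENNReal) ^ j * (2⁻¹ : ENNReal) ^ j) * ((2⁻¹ : ENNReal) ^ k *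
                (2⁻¹ : ENNReal) ^ j) := by ring
            _ = _ := by rw [h3, one_mul]
      _ ≤ (2⁻¹ : ENNReal) ^ k + (2⁻¹ : ENNReal) ^ k * 2 := by
          refine add_le_add (pow_le_pow_right_of_le_one' ha1 (by omega)) (le_of_eq ?_)
          rw [ENNReal.tsum_mul_left, ENNReal.tsum_geometric, ENNReal.one_sub_inv_two, inv_inv]
      _ = 3 * (2⁻¹ : ENNReal) ^ k := by ring

/-- **Each set of measure zero is a null set for some gauge that tends to infinity.** -/
theorem exists_gauge {S : Set Oracle} (hS : randomOracle S = 0) :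
    ∃ f : ℕ → ℝ, Tendsto f atTop atTop ∧ Null f S := by
  classical
  have hpos : ∀ j : ℕ, (0 : ENNReal) < (2⁻¹ : ENNReal) ^ j := fun j =>
    ENNReal.pow_pos (by simp) j
  choose T hT hTs using fun k : ℕ => exists_cover hS (hpos (3 * k))
  set w : ℕ → ℕ → ENNReal := fun k n =>
    ∑' σ : T k, if n = σ.1.length then (2⁻¹ : ENNReal) ^ n else 0 with hw
  have hwk : ∀ k, ∑' n, w k n ≤ (2⁻¹ : ENNReal) ^ (3 * k) := by
    intro k
    refine le_trans (le_of_eq ?_) (hTs k)
    rw [hw]
    dsimp only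
    rw [ENNReal.tsum_comm]
    refine tsum_congr fun σ => ?_
    rw [tsum_ite_eq]
  obtain ⟨g, hg1, hg2, hg3⟩ := exists_weight w hwk
  refine ⟨fun n => Real.logb 2 (g n), (Real.tendsto_logb_atTop (by norm_num)).comp hg2,
    fun δ hδ => ?_⟩
  obtain ⟨k, hk⟩ : ∃ k : ℕ, 3 * (2⁻¹ : ENNReal) ^ k ≤ ENNReal.ofReal δ := by
    obtain ⟨k, hk⟩ := exists_pow_lt_of_lt_one (show 0 < δ / 3 by linarith)
      (show (1 / 2 : ℝ) < 1 by norm_num)
    refine ⟨k, ?_⟩
    have h1 : 3 * (2⁻¹ : ENNReal) ^ k = ENNReal.ofReal (3 * (1 / 2) ^ k) := by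
      rw [ENNReal.ofReal_mul (by norm_num), ENNReal.ofReal_pow (by norm_num)]
      congr 1
      · simp
      · congr 1
        rw [one_div, ENNReal.ofReal_inv_of_pos (by norm_num)]
        simp
    rw [h1]
    exact ENNReal.ofReal_le_ofReal (by linarith)
  refine ⟨T k, hT k, le_trans (le_of_eq ?_) ((hg3 k).trans hk)⟩
  rw [hw]
  dsimp only
  have h1 : ∀ σ : T k, ENNReal.ofReal (2 ^ (Real.logb 2 (g σ.1.length) - σ.1.length)) =
      ∑' n, ENNReal.ofReal (g n) * (if n = σ.1.length then (2⁻¹ : ENNReal) ^ n else 0) := by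
    intro σ
    have h2 : ∀ n, ENNReal.ofReal (g n) * (if n = σ.1.length then (2⁻¹ : ENNReal) ^ n else 0) =
        if n = σ.1.length then ENNReal.ofReal (g n) * (2⁻¹ : ENNReal) ^ n else 0 := by
      intro n
      split_ifs <;> simp
    rw [tsum_congr h2, tsum_ite_eq, sub_eq_add_neg, Real.rpow_add (by norm_num),
      ENNReal.ofReal_mul (by positivity), H943R5.GC.N6.half_pow,
      Real.rpow_logb (by norm_num) (by norm_num) (lt_of_lt_of_le one_pos (hg1 _))]
  rw [tsum_congr h1, ENNReal.tsum_comm]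
  refine tsum_congr fun n => ?_
  rw [ENNReal.tsum_mul_left]

/-- **Every pattern, for all properties of measure one.** -/
theorem use_zero {S : Set Oracle} (hS : randomOracle S = 0) :
    ∀ᵐ B ∂(RT.randomSeq), ∀ I : Set ℕ, ∃ A : Oracle,
      (∀ i ∈ I, ∀ L, IsPSPACE (RT.xor2 A (B i)) L → Reduces L {x | RT.xor2 A (B i) x = true}) ∧
      ∀ i ∉ I, RT.xor2 A (B i) ∉ S := by
  obtain ⟨f, hf, hfS⟩ := exists_gauge hS
  exact use_p hf hfS

end Pool.Agent.TH733.RG
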